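import Pool.Agent.P.MP_0963f7_co.Defs

namespace Pool.Agent.P.MP_0963f7_co

open Relation

variable {P : Type} [Fintype P] {r : P → P → Prop} {L : P → ℕ}

/-- strict orders -/
structure SO (r : P → P → Prop) : Prop where
  trans : ∀ {a b c}, r a b → r b c → r a c
  irrefl : ∀ a, ¬ r a a

theorem IsLabeling.inj (h : IsLabeling L) {a b : P} (e : L a = L b) : a = b :=
  h.injOn trivial trivial e

theorem IsLabeling.pos (h : IsLabeling L) (a : P) : 1 ≤ L a := (h.mapsTo trivial).1

theorem IsLabeling.le (h : IsLabeling L) (a : P) : L a ≤ Fintype.card P := (h.mapsTo trivial).2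

theorem IsLabeling.surj (h : IsLabeling L) {k : ℕ} (h1 : 1 ≤ k) (h2 : k ≤ Fintype.card P) :
    ∃ a, L a = k := by
  obtain ⟨a, -, e⟩ := h.surjOn ⟨h1, h2⟩
  exact ⟨a, e⟩

theorem isLabeling_of_inj (h1 : ∀ a b, L a = L b → a = b) (h2 : ∀ a, 1 ≤ L a)
    (h3 : ∀ a, L a ≤ Fintype.card P) : IsLabeling L := by
  classical
  refine ⟨fun a _ => ⟨h2 a, h3 a⟩, fun a _ b _ => h1 a b, fun k hk => ?_⟩
  have : Finset.univ.image L = Finset.Icc 1 (Fintype.card P) := by
    refine Finset.eq_of_subset_of_card_le (fun j hj => ?_) ?_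
    · obtain ⟨a, -, rfl⟩ := Finset.mem_image.1 hj
      exact Finset.mem_Icc.2 ⟨h2 a, h3 a⟩
    · rw [Finset.card_image_of_injective _ fun a b => h1 a b]
      simp
  obtain ⟨a, -, e⟩ := Finset.mem_image.1 (this ▸ Finset.mem_Icc.2 hk)
  exact ⟨a, trivial, e⟩

theorem succ_unique (h : IsLabeling L) {x y y' : P} (h1 : IsSucc r L x y) (h2 : IsSucc r L x y') :
    y = y' :=
  h.inj (le_antisymm (h1.2 _ h2.1) (h2.2 _ h1.1))

theorem succ_exists (L : P → ℕ) {x z : P} (h : r x z) : ∃ y, IsSucc r L x y := by
  classical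
  obtain ⟨y, hy, hmin⟩ := Finset.exists_min_image (Finset.univ.filter fun w => r x w) L
    ⟨z, by simpa using h⟩
  exact ⟨y, by simpa using hy, fun w hw => hmin w (by simpa using hw)⟩

theorem promo_not {x : P} (h : ¬ InChain r L x) : promo r L x = L x - 1 := by
  unfold promo
  rw [if_neg h]

theorem promo_succ (hL : IsLabeling L) {x y : P} (h : InChain r L x) (hy : IsSucc r L x y) :
    promo r L x = L y - 1 := by
  unfold promo
  have e : ∃ y, IsSucc r L x y := ⟨y, hy⟩
  rw [if_pos h, dif_pos e, succ_unique hL e.choose_spec hy]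

theorem promo_max {x : P} (h : InChain r L x) (hy : ∀ z, ¬ r x z) :
    promo r L x = Fintype.card P := by
  unfold promo
  rw [if_pos h, dif_neg fun ⟨y, e⟩ => hy y e.1]

theorem promo_cases (r : P → P → Prop) (hL : IsLabeling L) (x : P) :
    (¬ InChain r L x ∧ promo r L x = L x - 1) ∨
      (InChain r L x ∧ ∃ y, IsSucc r L x y ∧ promo r L x = L y - 1) ∨
      (InChain r L x ∧ (∀ z, ¬ r x z) ∧ promo r L x = Fintype.card P) := by
  by_cases h : InChain r L x
  · by_cases h2 : ∃ z, r x z
    · obtain ⟨z, hz⟩ := h2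
      obtain ⟨y, hy⟩ := succ_exists L hz
      exact Or.inr (Or.inl ⟨h, y, hy, promo_succ hL h hy⟩)
    · push Not at h2
      exact Or.inr (Or.inr ⟨h, h2, promo_max h h2⟩)
  · exact Or.inl ⟨h, promo_not h⟩

omit [Fintype P] in
theorem InChain.succ {x y : P} (h : InChain r L x) (hy : IsSucc r L x y) : InChain r L y := by
  obtain ⟨v, h1, h2⟩ := h
  exact ⟨v, h1, h2.tail hy⟩

omit [Fintype P] in
theorem inChain_one {x : P} (h : L x = 1) : InChain r L x := ⟨x, h, ReflTransGen.refl⟩

omit [Fintype P] in
theorem InChain.pred {v : P} (h : InChain r L v) :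
    L v = 1 ∨ ∃ u, InChain r L u ∧ IsSucc r L u v := by
  obtain ⟨w, h1, h2⟩ := h
  rcases h2.cases_tail with rfl | ⟨u, h3, h4⟩
  · exact Or.inl h1
  · exact Or.inr ⟨u, ⟨w, h1, h3⟩, h4⟩

omit [Fintype P] in
theorem rtg_le (hr : SO r) {u v : P} (h : ReflTransGen (IsSucc r L) u v) : u = v ∨ r u v := by
  induction h with
  | refl => exact Or.inl rfl
  | tail _ h2 ih =>
    rcases ih with rfl | ih
    · exact Or.inr h2.1
    · exact Or.inr (hr.trans ih h2.1)

theorem chain_total (hL : IsLabeling L) {u v : P} (hu : InChain r L u) (hv : InChain r L v) :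
    ReflTransGen (IsSucc r L) u v ∨ ReflTransGen (IsSucc r L) v u := by
  obtain ⟨a, a1, a2⟩ := hu
  obtain ⟨b, b1, b2⟩ := hv
  obtain rfl := hL.inj (a1.trans b1.symm)
  exact ReflTransGen.total_of_right_unique (fun _ _ _ h1 h2 => succ_unique hL h1 h2) a2 b2

theorem chain_between (hr : SO r) (hL : IsLabeling L) {u v s : P} (hu : InChain r L u)
    (hv : InChain r L v) (huv : r u v) (hs : IsSucc r L u s) : s = v ∨ r s v := by
  rcases chain_total hL hu hv with h | h
  · rcases h.cases_head with rfl | ⟨s', h1, h2⟩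
    · exact absurd huv (hr.irrefl _)
    · obtain rfl := succ_unique hL hs h1
      exact rtg_le hr h2
  · rcases rtg_le hr h with rfl | h
    · exact absurd huv (hr.irrefl _)
    · exact absurd (hr.trans huv h) (hr.irrefl _)

theorem chain_label (hr : SO r) (hL : IsLabeling L) {u s : P} (hu : InChain r L u) (hs : r u s) :
    L u < L s := by
  have hne : L u ≠ L s := fun e => hr.irrefl _ (hL.inj e ▸ hs)
  rcases hu.pred with h | ⟨w, -, h⟩
  · have := hL.pos s
    omega
  · exact lt_of_le_of_ne (h.2 s (hr.trans h.1 hs)) hne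

theorem two_le_of_not (hL : IsLabeling L) {x : P} (h : ¬ InChain r L x) : 2 ≤ L x := by
  have h1 := hL.pos x
  have h2 : L x ≠ 1 := fun e => h (inChain_one e)
  omega

theorem chain_lt (hr : SO r) (hL : IsLabeling L) {u v : P} (hu : InChain r L u) (huv : r u v) :
    promo r L u < promo r L v := by
  obtain ⟨s, hs⟩ := succ_exists L huv
  rw [promo_succ hL hu hs]
  have h1 := chain_label hr hL hu hs.1
  have h2 := hL.pos u
  have h3 := hL.le s
  rcases promo_cases r hL v with ⟨a, e⟩ | ⟨a, y, hy, e⟩ | ⟨a, -, e⟩ <;> rw [e]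
  · have := hs.2 v huv
    have : L s ≠ L v := fun e => a (hL.inj e ▸ hu.succ hs)
    omega
  · have : r s y := by
      rcases chain_between hr hL hu a huv hs with rfl | h
      · exact hy.1
      · exact hr.trans h hy.1
    have := chain_label hr hL (hu.succ hs) this
    omega
  · omega

theorem IsLabeling.promo (hr : SO r) (hL : IsLabeling L) : IsLabeling (promo r L) := by
  refine isLabeling_of_inj (fun a b e => ?_) (fun a => ?_) fun a => ?_
  · by_cases ha : InChain r L a
    · by_cases hb : InChain r L b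
      · rcases chain_total hL ha hb with h | h <;> rcases rtg_le hr h with h | h
        · exact h
        · exact absurd e (chain_lt hr hL ha h).ne
        · exact h.symm
        · exact absurd e (chain_lt hr hL hb h).ne'
      · exfalso
        have h1 := two_le_of_not hL hb
        have h2 := hL.le b
        rw [promo_not hb] at e
        rcases promo_cases r hL a with ⟨c, -⟩ | ⟨-, y, hy, e'⟩ | ⟨-, -, e'⟩
        · exact c ha
        · have := hL.pos y
          exact hb (hL.inj (show L y = L b by omega) ▸ ha.succ hy)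
        · omega
    · have h1 := two_le_of_not hL ha
      have h2 := hL.le a
      rw [promo_not ha] at e
      rcases promo_cases r hL b with ⟨c, e'⟩ | ⟨c, y, hy, e'⟩ | ⟨-, -, e'⟩
      · have := hL.pos b
        exact hL.inj (by omega)
      · have := hL.pos y
        exact absurd (hL.inj (show L y = L a by omega) ▸ c.succ hy) ha
      · omega
  · rcases promo_cases r hL a with ⟨c, e⟩ | ⟨c, y, hy, e⟩ | ⟨-, -, e⟩ <;> rw [e]
    · have := two_le_of_not hL c
      omega
    · have := chain_label hr hL c hy.1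
      have := hL.pos a
      omega
    · exact (hL.pos a).trans (hL.le a)
  · rcases promo_cases r hL a with ⟨c, e⟩ | ⟨c, y, hy, e⟩ | ⟨-, -, e⟩ <;> rw [e]
    · have := hL.le a
      omega
    · have := hL.le y
      omega

theorem IsLabeling.iter (hr : SO r) (hL : IsLabeling L) (t : ℕ) :
    IsLabeling ((Pool.Agent.P.MP_0963f7_co.promo r)^[t] L) := by
  induction t with
  | zero => exact hL
  | succ t ih => rw [Function.iterate_succ_apply']; exact ih.promo hr

/-- labels above `k` are sorted -/
def Good (r : P → P → Prop) (k : ℕ) (L : P → ℕ) : Prop := ∀ u v, r u v → k < L u → L u < L v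

theorem Good.promo (hr : SO r) (hL : IsLabeling L) {k : ℕ} (h : Good r k L) :
    Good r (k - 1) (promo r L) := by
  intro u v huv hk
  by_cases hu : InChain r L u
  · exact chain_lt hr hL hu huv
  have h1 := two_le_of_not hL hu
  have h2 := hL.le u
  rw [promo_not hu] at hk ⊢
  have hk' : k < L u := by omega
  rcases promo_cases r hL v with ⟨-, e⟩ | ⟨-, y, hy, e⟩ | ⟨-, -, e⟩ <;> rw [e]
  · have := h u v huv hk'
    omega
  · have := h u y (hr.trans huv hy.1) hk'
    omega
  · omega

theorem good_iter (hr : SO r) (hL : IsLabeling L) (t : ℕ) :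
    Good r (Fintype.card P - t) ((promo r)^[t] L) := by
  induction t with
  | zero => exact fun u v _ h => absurd h (not_lt.2 (hL.le u))
  | succ t ih =>
    rw [Function.iterate_succ_apply', ← Nat.sub_sub]
    exact ih.promo hr (hL.iter hr t)

theorem Good.zero_of_one (hr : SO r) (hL : IsLabeling L) (h : Good r 1 L) : Good r 0 L := by
  intro u v huv _
  by_cases e : L u = 1
  · exact chain_label hr hL (inChain_one e) huv
  · have := hL.pos u
    exact h u v huv (by omega)

theorem Good.zero_of_two (hr : SO r) (hL : IsLabeling L) (h : Good r 2 L)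
    (h2 : ∀ u v, r u v → L u = 2 → L v ≠ 1) : Good r 0 L := by
  refine Good.zero_of_one hr hL fun u v huv hu => ?_
  by_cases e : L u = 2
  · have a := h2 u v huv e
    have b := hL.pos v
    have c : L u ≠ L v := fun e => hr.irrefl _ (hL.inj e ▸ huv)
    omega
  · exact h u v huv (by omega)

theorem good_zero_iter (hr : SO r) (hL : IsLabeling L) (h : Good r 0 L) (t : ℕ) :
    Good r 0 ((promo r)^[t] L) := by
  induction t with
  | zero => exact h
  | succ t ih => rw [Function.iterate_succ_apply']; exact ih.promo hr (hL.iter hr t)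

omit [Fintype P] in
theorem not_chain_of_min {x : P} (hx : ∀ z, ¬ r z x) (h : L x ≠ 1) : ¬ InChain r L x := by
  intro c
  rcases c.pred with e | ⟨u, -, hu⟩
  · exact h e
  · exact hx u hu.1

theorem iter_min {x : P} (hx : ∀ z, ¬ r z x) (t : ℕ) (ht : t < L x) :
    (promo r)^[t] L x = L x - t := by
  induction t with
  | zero => rfl
  | succ t ih =>
    have := ih (by omega)
    rw [Function.iterate_succ_apply', promo_not (not_chain_of_min hx (by omega)), this]
    omega

theorem inv_back (hr : SO r) (hL : IsLabeling L) {u v : P} (huv : r u v) {c : ℕ}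
    (hu : promo r L u = c + 1) (hv : promo r L v = c) :
    L u = c + 2 ∧ ∃ w, r u w ∧ L w = c + 1 := by
  have hc : ¬ InChain r L u := fun h => by
    have := chain_lt hr hL h huv
    omega
  have h1 := two_le_of_not hL hc
  have h2 := hL.le u
  rw [promo_not hc] at hu
  refine ⟨by omega, ?_⟩
  have h3 := (hL.promo hr).pos v
  rcases promo_cases r hL v with ⟨-, e⟩ | ⟨-, y, hy, e⟩ | ⟨-, -, e⟩
  · exact ⟨v, huv, by omega⟩
  · exact ⟨y, hr.trans huv hy.1, by omega⟩
  · omega

theorem inv_back_iter (hr : SO r) (hL : IsLabeling L) {u : P} (t : ℕ) : ∀ {v : P} {c : ℕ},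
    r u v → (promo r)^[t] L u = c + 1 → (promo r)^[t] L v = c → L u = c + 1 + t := by
  induction t with
  | zero => exact fun _ h _ => h
  | succ t ih =>
    intro v c huv hu hv
    rw [Function.iterate_succ_apply'] at hu hv
    obtain ⟨h1, w, h2, h3⟩ := inv_back hr (hL.iter hr t) huv hu hv
    have := ih h2 h1 h3
    omega

theorem IsLabeling.swap (hL : IsLabeling L) {x : P} {c : ℕ} (hc : 1 ≤ c) (hx : L x = c + 1) :
    IsLabeling (Equiv.swap c (c + 1) ∘ L) := by
  have h0 := hL.le x
  refine isLabeling_of_inj (fun a b e => hL.inj ((Equiv.swap c (c + 1)).injective e))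
    (fun a => ?_) fun a => ?_
  · have := hL.pos a
    simp only [Function.comp, Equiv.swap_apply_def]
    split_ifs <;> omega
  · have := hL.le a
    simp only [Function.comp, Equiv.swap_apply_def]
    split_ifs <;> omega

theorem promo_swap (hL : IsLabeling L) {x : P} (hmin : ∀ z, ¬ r z x) {c : ℕ}
    (hc : 1 ≤ c) (hx : L x = c + 2) :
    promo r (Equiv.swap (c + 1) (c + 2) ∘ L) = Equiv.swap c (c + 1) ∘ promo r L := by
  have hL' := hL.swap (c := c + 1) (by omega) hx
  have hne : ∀ {a z}, r a z → L z ≠ c + 2 := fun h e => hmin _ (hL.inj (e.trans hx.symm) ▸ h)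
  have hs : IsSucc r (Equiv.swap (c + 1) (c + 2) ∘ L) = IsSucc r L := by
    funext a b
    refine propext (and_congr_right fun hab => forall₂_congr fun z hz => ?_)
    have h1 := hne hab
    have h2 := hne hz
    simp only [Function.comp, Equiv.swap_apply_def]
    split_ifs <;> omega
  have hch : ∀ a, InChain r (Equiv.swap (c + 1) (c + 2) ∘ L) a ↔ InChain r L a := by
    intro a
    unfold InChain
    rw [hs]
    refine exists_congr fun v => and_congr_left fun _ => ?_
    simp only [Function.comp, Equiv.swap_apply_def]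
    split_ifs <;> omega
  have key : ∀ y, Equiv.swap (c + 1) (c + 2) (L y) - 1 = Equiv.swap c (c + 1) (L y - 1) := by
    intro y
    have := hL.pos y
    simp only [Equiv.swap_apply_def]
    split_ifs <;> omega
  funext a
  rcases promo_cases r hL a with ⟨h, e⟩ | ⟨h, y, hy, e⟩ | ⟨h, hm, e⟩
  · rw [promo_not (mt (hch a).1 h), Function.comp, Function.comp, e, key]
  · rw [promo_succ hL' ((hch a).2 h) (hs ▸ hy), Function.comp, Function.comp, e, key]
  · rw [promo_max ((hch a).2 h) hm, Function.comp, e, Equiv.swap_apply_of_ne_of_ne] <;>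
      have := hL.le x <;> omega

theorem iter_swap (hr : SO r) {x : P} (hmin : ∀ z, ¬ r z x) (t : ℕ) : ∀ {L : P → ℕ} {c : ℕ},
    IsLabeling L → 1 ≤ c → L x = c + t + 1 →
    (promo r)^[t] (Equiv.swap (c + t) (c + t + 1) ∘ L) = Equiv.swap c (c + 1) ∘ (promo r)^[t] L := by
  induction t with
  | zero => exact fun _ _ _ => rfl
  | succ t ih =>
    intro L c hL hc hx
    rw [Function.iterate_succ_apply, Function.iterate_succ_apply]
    have := promo_swap hL hmin (c := c + t) (by omega) hx
    rw [← ih (hL.promo hr) hc, ← this]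
    · rfl
    · rw [promo_not (not_chain_of_min hmin (by omega)), hx]
      omega

theorem IsLabeling.comp (hL : IsLabeling L) (g : Equiv.Perm P) : IsLabeling (L ∘ g) :=
  isLabeling_of_inj (fun _ _ e => g.injective (hL.inj e)) (fun _ => hL.pos _) fun _ => hL.le _

theorem promo_comp (hL : IsLabeling L) (g : Equiv.Perm P) (hg : ∀ a b, r (g a) (g b) ↔ r a b) :
    promo r (L ∘ g) = promo r L ∘ g := by
  have hs : ∀ a b, IsSucc r (L ∘ g) a b ↔ IsSucc r L (g a) (g b) := by
    intro a b
    refine and_congr (hg a b).symm ⟨fun h z hz => ?_, fun h z hz => h _ ((hg a z).2 hz)⟩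
    obtain ⟨z, rfl⟩ := g.surjective z
    exact h z ((hg a z).1 hz)
  have hch : ∀ a, InChain r (L ∘ g) a ↔ InChain r L (g a) := by
    intro a
    constructor
    · rintro ⟨v, h1, h2⟩
      exact ⟨g v, h1, h2.lift g fun a b h => (hs a b).1 h⟩
    · rintro ⟨v, h1, h2⟩
      refine ⟨g.symm v, by simpa using h1, ?_⟩
      have : ReflTransGen (IsSucc r (L ∘ g)) (g.symm v) (g.symm (g a)) :=
        h2.lift (p := IsSucc r (L ∘ g)) g.symm fun a b h => (hs _ _).2 (by simpa using h)
      rwa [g.symm_apply_apply] at this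
  funext a
  rcases promo_cases r (hL.comp g) a with ⟨h, e⟩ | ⟨h, y, hy, e⟩ | ⟨h, hm, e⟩ <;> rw [e]
  · exact (promo_not (mt (hch a).2 h)).symm
  · exact (promo_succ hL ((hch a).1 h) ((hs _ _).1 hy)).symm
  · refine (promo_max ((hch a).1 h) fun z hz => ?_).symm
    obtain ⟨z, rfl⟩ := g.surjective z
    exact hm z ((hg a z).1 hz)

theorem iter_comp (hr : SO r) (hL : IsLabeling L) (g : Equiv.Perm P)
    (hg : ∀ a b, r (g a) (g b) ↔ r a b) (t : ℕ) :
    (promo r)^[t] (L ∘ g) = (promo r)^[t] L ∘ g := by
  induction t with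
  | zero => rfl
  | succ t ih =>
    rw [Function.iterate_succ_apply', Function.iterate_succ_apply', ih,
      promo_comp (hL.iter hr t) g hg]

end Pool.Agent.P.MP_0963f7_co
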