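import Pool.Agent.P.MP_0963f7_co.Flat

namespace Pool.Agent.P.MP_0963f7_co

open Finset

variable {P : Type} [Fintype P] {r : P → P → Prop} {D B : Set P}

open Classical in
/-- the finite set of labelings -/
noncomputable def Lab (P : Type) [Fintype P] : Finset (P → ℕ) :=
  (Fintype.piFinset fun _ => Icc 1 (Fintype.card P)).filter IsLabeling

theorem mem_Lab {L : P → ℕ} : L ∈ Lab P ↔ IsLabeling L := by
  classical
  unfold Lab
  rw [mem_filter, Fintype.mem_piFinset]
  exact ⟨fun h => h.2, fun h => ⟨fun a => mem_Icc.2 ⟨h.pos a, h.le a⟩, h⟩⟩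

theorem fiber_count {α β : Type} [DecidableEq β] {E₁ E₂ : Finset α} {p₁ p₂ : α → β}
    {T S : Finset β} (hS : S ⊆ T) (m₁ : ∀ a ∈ E₁, p₁ a ∈ T) (m₂ : ∀ a ∈ E₂, p₂ a ∈ T)
    (u₁ : ∀ d ∈ T, ∀ e ∈ T, (E₁.filter fun a => p₁ a = d).card ≤ (E₁.filter fun a => p₁ a = e).card)
    (u₂ : ∀ d ∈ T, ∀ e ∈ T, (E₂.filter fun a => p₂ a = d).card ≤ (E₂.filter fun a => p₂ a = e).card)
    (h : E₁.card = E₂.card) :
    (E₁.filter fun a => p₁ a ∈ S).card = (E₂.filter fun a => p₂ a ∈ S).card := by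
  have key : ∀ d ∈ T, (E₁.filter fun a => p₁ a = d).card = (E₂.filter fun a => p₂ a = d).card := by
    intro d hd
    rw [card_eq_sum_card_fiberwise (f := p₁) (t := T) fun a ha => m₁ a ha,
      card_eq_sum_card_fiberwise (f := p₂) (t := T) fun a ha => m₂ a ha,
      sum_congr rfl fun e he => le_antisymm (u₁ e he d hd) (u₁ d hd e he),
      sum_congr rfl fun e he => le_antisymm (u₂ e he d hd) (u₂ d hd e he),
      sum_const, sum_const, smul_eq_mul, smul_eq_mul] at h
    exact Nat.eq_of_mul_eq_mul_left (card_pos.2 ⟨d, hd⟩) h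
  rw [← sum_card_fiberwise_eq_card_filter, ← sum_card_fiberwise_eq_card_filter]
  exact sum_congr rfl fun d hd => key d (hS hd)

open Classical in
/-- `x` starts with the top label; after `t` steps label `c` is in `B` and label `c'` is at a
minimal element outside `B` -/
noncomputable def Y (r : P → P → Prop) (t : ℕ) (x : P) (B : Set P) (c c' : ℕ) : Finset (P → ℕ) :=
  (Lab P).filter fun L => L x = Fintype.card P ∧ (∃ a ∈ B, (promo r)^[t] L a = c) ∧
    ∃ a, a ∉ B ∧ (∀ z, ¬ r z a) ∧ (promo r)^[t] L a = c'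

theorem mem_Y {t : ℕ} {x : P} {c c' : ℕ} {L : P → ℕ} : L ∈ Y r t x B c c' ↔
    IsLabeling L ∧ L x = Fintype.card P ∧ (∃ a ∈ B, (promo r)^[t] L a = c) ∧
      ∃ a, a ∉ B ∧ (∀ z, ¬ r z a) ∧ (promo r)^[t] L a = c' := by
  classical
  unfold Y
  rw [mem_filter, mem_Lab]

theorem below_small (hr : SO r) {L : P → ℕ} (hL : IsLabeling L) {t : ℕ}
    (hn : Fintype.card P = t + 3) {w a : P} (h : r w a) (ha : (promo r)^[t] L a ≤ 3) :
    (promo r)^[t] L w ≤ 3 := by
  by_contra hc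
  have := good_iter hr hL t w a h (by omega)
  omega

theorem step (h : Mod r D B) {B' : Set P} {x y : P} {t : ℕ} (hn : Fintype.card P = t + 3)
    (hx : x ∈ B) (hmin : ∀ z, ¬ r z x) (hy : y ∈ D) (hyx : y ≠ x) (hD : D ⊆ B')
    (hB' : ∀ a ∈ B', a ∉ D → ∀ d ∈ D, r d a)
    (ih : (Y r t x B' 1 2).card = (Y r t x B' 2 1).card) :
    (Y r t x B 1 2).card = (Y r t x B 2 1).card := by
  classical
  have : Nonempty P := ⟨x⟩
  set pos : ℕ → (P → ℕ) → P := fun c L => Function.invFun ((promo (flat r D))^[t] L) c with hpos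
  have p1 : ∀ c L, IsLabeling L → 1 ≤ c → c ≤ 2 → (promo (flat r D))^[t] L (pos c L) = c :=
    fun c L hL c1 c2 => Function.invFun_eq ((hL.iter h.flat.so t).surj c1 (by omega))
  have p2 : ∀ c L, IsLabeling L → 1 ≤ c → c ≤ 2 → ∀ d,
      (promo (flat r D))^[t] L d = c → pos c L = d := fun c L hL c1 c2 d e =>
    (hL.iter h.flat.so t).inj ((p1 c L hL c1 c2).trans e.symm)
  have p3 : ∀ c L, IsLabeling L → 1 ≤ c → c ≤ 2 → L x = Fintype.card P → pos c L ≠ x := by
    intro c L hL c1 c2 e k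
    have a := p1 c L hL c1 c2
    rw [k, iter_min (fun z k => hmin z k.1) t (by omega)] at a
    omega
  have p4 : ∀ c L, IsLabeling L → 1 ≤ c → c ≤ 2 → ∀ a, (promo r)^[t] L a = c →
      (a ∈ B ↔ pos c L ∈ B) ∧ (a ∈ D ↔ pos c L ∈ D) := by
    intro c L hL c1 c2 a e
    have s := h.sim_iter hL t
    have e' := e.trans (p1 c L hL c1 c2).symm
    exact ⟨s.2 _ _ e', mem_iff_of_out (hL.iter h.so t) (hL.iter h.flat.so t) s.1 e'⟩
  have p5 : ∀ c L, IsLabeling L → 1 ≤ c → c ≤ 2 → ∀ d ∈ D, ∀ e ∈ D,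
      pos c (L ∘ Equiv.swap d e) = Equiv.swap d e (pos c L) := by
    intro c L hL c1 c2 d hd e he
    refine p2 c _ (hL.comp _) c1 c2 _ ?_
    rw [iter_comp h.flat.so hL _ (h.swap_aut hd he), Function.comp, Equiv.swap_apply_self]
    exact p1 c L hL c1 c2
  have p6 : ∀ L, IsLabeling L → ∀ d ∈ D, ∀ e ∈ D, ∀ a, a ∉ D →
      (promo r)^[t] (L ∘ Equiv.swap d e) a = (promo r)^[t] L a := by
    intro L hL d hd e he a ha
    rw [(h.sim_iter (hL.comp _) t).1 a ha, (h.sim_iter hL t).1 a ha,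
      iter_comp h.flat.so hL _ (h.swap_aut hd he), Function.comp,
      Equiv.swap_apply_of_ne_of_ne (fun k : a = d => ha (k ▸ hd)) fun k : a = e => ha (k ▸ he)]
  have x3 : ∀ L : P → ℕ, L x = Fintype.card P → (promo r)^[t] L x = 3 := by
    intro L e
    rw [iter_min hmin t (by omega)]
    omega
  have small : ∀ L, IsLabeling L → L x = Fintype.card P → ∀ c c' a a' w, c + c' = 3 → 1 ≤ c →
      1 ≤ c' → (promo r)^[t] L a = c → (promo r)^[t] L a' = c' → (promo r)^[t] L w ≤ 3 →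
      w = x ∨ w = a ∨ w = a' := by
    intro L hL e c c' a a' w k c1 c2 ea ea' hw
    have hL' := hL.iter h.so t
    have := hL'.pos w
    have := x3 L e
    by_cases k1 : (promo r)^[t] L w = 3
    · exact Or.inl (hL'.inj (by omega))
    by_cases k2 : (promo r)^[t] L w = c
    · exact Or.inr (Or.inl (hL'.inj (by omega)))
    · exact Or.inr (Or.inr (hL'.inj (by omega)))
  have inD : ∀ c c', c + c' = 3 → 1 ≤ c → 1 ≤ c' → ∀ L ∈ Y r t x B' c c', pos c L ∈ D := by
    intro c c' k c1 c2 L hL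
    obtain ⟨hL, e, ⟨a, ha, ea⟩, a', ha', -, ea'⟩ := mem_Y.1 hL
    rw [← (p4 c L hL c1 (by omega) a ea).2]
    by_contra hc
    rcases small L hL e c c' a a' y k c1 c2 ea ea'
      (below_small h.so hL hn (hB' a ha hc y hy) (by omega)) with k | k | k
    · exact hyx k
    · exact hc (k ▸ hy)
    · exact ha' (k ▸ hD hy)
  have inv : ∀ c c', c + c' = 3 → 1 ≤ c → 1 ≤ c' → ∀ L ∈ Y r t x B' c c', ∀ d ∈ D, ∀ e ∈ D,
      d ≠ x → e ≠ x → L ∘ Equiv.swap d e ∈ Y r t x B' c c' := by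
    intro c c' k c1 c2 L hY d hd e he dx ex
    have hp := inD c c' k c1 c2 L hY
    obtain ⟨hL, e1, -, a', ha', m, ea'⟩ := mem_Y.1 hY
    refine mem_Y.2 ⟨hL.comp _, ?_, ?_, a', ha', m, ?_⟩
    · rw [Function.comp, Equiv.swap_apply_of_ne_of_ne dx.symm ex.symm, e1]
    · obtain ⟨a, ea⟩ := ((hL.comp (Equiv.swap d e)).iter h.so t).surj c1 (by omega)
      refine ⟨a, hD ((p4 c _ (hL.comp _) c1 (by omega) a ea).2.2 ?_), ea⟩
      rw [p5 c L hL c1 (by omega) d hd e he, Equiv.swap_apply_def]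
      split_ifs
      exacts [he, hd, hp]
    · rw [p6 L hL d hd e he a' fun k => ha' (hD k), ea']
  set F : ℕ → ℕ → Finset (P → ℕ) := fun c c' => (Lab P).filter fun L =>
    L x = Fintype.card P ∧ pos c L ∈ B ∧ pos c' L ∈ D ∧ pos c' L ∉ B with hF
  have split : ∀ c c', c + c' = 3 → 1 ≤ c → 1 ≤ c' → (Y r t x B c c').card = (F c c').card +
      ((Y r t x B' c c').filter fun L => pos c L ∈ (univ.filter fun a => a ∈ B).erase x).card := by
    intro c c' k c1 c2
    rw [← card_union_of_disjoint]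
    · congr 1
      ext L
      simp only [hF, mem_union, mem_filter, mem_Y, mem_Lab, mem_erase, mem_univ, true_and]
      constructor
      · rintro ⟨hL, e, ⟨a, ha, ea⟩, a', ha', m, ea'⟩
        have k1 := p4 c L hL c1 (by omega) a ea
        have k2 := p4 c' L hL c2 (by omega) a' ea'
        by_cases hd : a' ∈ D
        · exact Or.inl ⟨hL, e, k1.1.1 ha, k2.2.1 hd, fun k => ha' (k2.1.2 k)⟩
        · exact Or.inr ⟨⟨hL, e, ⟨a, hD (h.sub ha), ea⟩, a',
            fun k => m x (hB' a' k hd x (h.sub hx)), m, ea'⟩, p3 c L hL c1 (by omega) e, k1.1.1 ha⟩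
      · rintro (⟨hL, e, k1, k2, k3⟩ | ⟨⟨hL, e, -, a', ha', m, ea'⟩, -, k1⟩)
        · obtain ⟨a, ea⟩ := (hL.iter h.so t).surj c1 (by omega)
          obtain ⟨a', ea'⟩ := (hL.iter h.so t).surj c2 (by omega)
          have j1 := (p4 c L hL c1 (by omega) a ea).1.2 k1
          have j2 := (p4 c' L hL c2 (by omega) a' ea').2.2 k2
          have j3 : a' ∉ B := fun j => k3 ((p4 c' L hL c2 (by omega) a' ea').1.1 j)
          refine ⟨hL, e, ⟨a, j1, ea⟩, a', j3, fun w hw => ?_, ea'⟩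
          have j4 : w ∉ B := fun j => j3 ((h.sep _ _ hw j2).1 j)
          rcases small L hL e c c' a a' w k c1 c2 ea ea'
            (below_small h.so hL hn hw (by omega)) with k | k | k
          · exact j4 (k ▸ hx)
          · exact j4 (k ▸ j1)
          · exact h.so.irrefl _ (k ▸ hw)
        · obtain ⟨a, ea⟩ := (hL.iter h.so t).surj c1 (by omega)
          exact ⟨hL, e, ⟨a, (p4 c L hL c1 (by omega) a ea).1.2 k1, ea⟩, a',
            fun j => ha' (hD (h.sub j)), m, ea'⟩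
    · rw [disjoint_left]
      intro L h1 h2
      simp only [hF, mem_filter, mem_Lab] at h1
      obtain ⟨hL, -, -, a', ha', -, ea'⟩ := mem_Y.1 (mem_filter.1 h2).1
      exact ha' (hD ((p4 c' L hL c2 (by omega) a' ea').2.2 h1.2.2.2.1))
  have symF : ∀ c c', c + c' = 3 → 1 ≤ c → 1 ≤ c' → (F c c').card ≤ (F c' c).card := by
    intro c c' k c1 c2
    refine card_le_card_of_injOn (fun L => L ∘ Equiv.swap (pos c L) (pos c' L)) ?_ ?_
    · intro L hL
      simp only [hF, coe_filter, mem_Lab, Set.mem_ofPred_eq] at hL ⊢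
      obtain ⟨hL, e, k1, k2, k3⟩ := hL
      rw [p5 c L hL c1 (by omega) _ (h.sub k1) _ k2, p5 c' L hL c2 (by omega) _ (h.sub k1) _ k2,
        Equiv.swap_apply_left, Equiv.swap_apply_right]
      refine ⟨hL.comp _, ?_, k1, k2, k3⟩
      rw [Function.comp, Equiv.swap_apply_of_ne_of_ne (p3 c L hL c1 (by omega) e).symm
        (p3 c' L hL c2 (by omega) e).symm, e]
    · refine Set.LeftInvOn.injOn (f₁' := fun L => L ∘ Equiv.swap (pos c L) (pos c' L)) ?_
      intro L hL
      simp only [hF, coe_filter, mem_Lab, Set.mem_ofPred_eq] at hL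
      obtain ⟨hL, -, k1, k2, -⟩ := hL
      simp only
      rw [p5 c L hL c1 (by omega) _ (h.sub k1) _ k2, p5 c' L hL c2 (by omega) _ (h.sub k1) _ k2,
        Equiv.swap_apply_left, Equiv.swap_apply_right, Equiv.swap_comm (pos c' L)]
      funext a
      simp only [Function.comp, Equiv.swap_apply_self]
  have unif : ∀ c c', c + c' = 3 → 1 ≤ c → 1 ≤ c' →
      ∀ d ∈ (univ.filter fun a => a ∈ D).erase x, ∀ e ∈ (univ.filter fun a => a ∈ D).erase x,
      ((Y r t x B' c c').filter fun L => pos c L = d).card ≤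
        ((Y r t x B' c c').filter fun L => pos c L = e).card := by
    intro c c' k c1 c2 d hd e he
    simp only [mem_erase, mem_filter, mem_univ, true_and] at hd he
    refine card_le_card_of_injOn (fun L => L ∘ Equiv.swap d e) ?_ ?_
    · intro L hL
      simp only [coe_filter, Set.mem_ofPred_eq] at hL ⊢
      refine ⟨inv c c' k c1 c2 L hL.1 d hd.2 e he.2 hd.1 he.1, ?_⟩
      rw [p5 c L (mem_Y.1 hL.1).1 c1 (by omega) d hd.2 e he.2, hL.2, Equiv.swap_apply_left]
    · intro L _ L' _ e'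
      exact (Equiv.swap d e).surjective.injective_comp_right e'
  have memT : ∀ c c', c + c' = 3 → 1 ≤ c → 1 ≤ c' → ∀ L ∈ Y r t x B' c c',
      pos c L ∈ (univ.filter fun a => a ∈ D).erase x := by
    intro c c' k c1 c2 L hL
    simp only [mem_erase, mem_filter, mem_univ, true_and]
    exact ⟨p3 c L (mem_Y.1 hL).1 c1 (by omega) (mem_Y.1 hL).2.1, inD c c' k c1 c2 L hL⟩
  rw [split 1 2 rfl le_rfl (by omega), split 2 1 rfl (by omega) le_rfl,
    le_antisymm (symF 1 2 rfl le_rfl (by omega)) (symF 2 1 rfl (by omega) le_rfl),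
    fiber_count (T := (univ.filter fun a => a ∈ D).erase x) ?_ (memT 1 2 rfl le_rfl (by omega))
      (memT 2 1 rfl (by omega) le_rfl) (unif 1 2 rfl le_rfl (by omega))
      (unif 2 1 rfl (by omega) le_rfl) ih]
  intro a ha
  simp only [mem_erase, mem_filter, mem_univ, true_and] at ha ⊢
  exact ⟨ha.1, h.sub ha.2⟩

end Pool.Agent.P.MP_0963f7_co
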