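import Mathlib

namespace Pool.Agent.P.MP_0963f7_co

/-- `L` is a bijection from `P` onto `{1, …, n}`, `n = |P|`. -/
def IsLabeling {P : Type} [Fintype P] (L : P → ℕ) : Prop :=
  Set.BijOn L Set.univ (Set.Icc 1 (Fintype.card P))

/-- `y` is the `L`-successor of `x` for the strict order `r`: it has the smallest label among
the elements strictly greater than `x`. -/
def IsSucc {P : Type} (r : P → P → Prop) (L : P → ℕ) (x y : P) : Prop :=
  r x y ∧ ∀ z, r x z → L y ≤ L z

/-- `v` is one of `v₁ = L⁻¹(1), v₂, …, v_m`. -/
def InChain {P : Type} (r : P → P → Prop) (L : P → ℕ) (v : P) : Prop :=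
  ∃ v₁, L v₁ = 1 ∧ Relation.ReflTransGen (IsSucc r L) v₁ v

open Classical in
/-- Extended promotion for the strict order `r`. -/
noncomputable def promo {P : Type} [Fintype P] (r : P → P → Prop) (L : P → ℕ) (x : P) : ℕ :=
  if InChain r L x then
    (if h : ∃ y, IsSucc r L x y then L h.choose - 1 else Fintype.card P)
  else L x - 1

/-- `k` is the least number of promotions after which `L` is a linear extension. -/
def HasSortingTime {P : Type} [Fintype P] [PartialOrder P] (L : P → ℕ) (k : ℕ) : Prop :=
  IsLeast {j : ℕ | StrictMono ((promo (· < ·))^[j] L)} k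

/-- `Q` has a unique maximal element, and every other element is covered by exactly one
element. -/
def IsRootedTree (Q : Type) [PartialOrder Q] : Prop :=
  ∃ root : Q, IsMax root ∧ (∀ q, IsMax q → q = root) ∧ ∀ q, q ≠ root → ∃! q', q ⋖ q'

/-- `φ : P → Q` is an inflation whose fibres over the minimal elements of `Q` are singletons. -/
def IsDeflatedInflation {P Q : Type} [PartialOrder P] [PartialOrder Q] (φ : P → Q) : Prop :=
  Function.Surjective φ ∧ (∀ v, ∃! m, Minimal (fun a => φ a = v) m) ∧
    (∀ x y, φ x ≠ φ y → (x < y ↔ φ x < φ y)) ∧ ∀ l, IsMin l → ∃! a, φ a = l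

end Pool.Agent.P.MP_0963f7_co
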