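import Pool.Agent.P.MP_0963f7_co.Basic

namespace Pool.Agent.P.MP_0963f7_co

open Relation

variable {P : Type} [Fintype P] {r r' : P → P → Prop} {L M : P → ℕ} {D B : Set P}

/-- `D` is a lower module with something above it, and `B` is a union of components of `D` -/
structure Mod (r : P → P → Prop) (D B : Set P) : Prop where
  so : SO r
  down : ∀ a b, r a b → b ∈ D → a ∈ D
  out : ∀ u, u ∉ D → (∀ d ∈ D, r d u) ∨ ∀ d ∈ D, ¬ r d u
  top : ∃ u, u ∉ D ∧ ∀ d ∈ D, r d u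
  sub : B ⊆ D
  sep : ∀ a b, r a b → b ∈ D → (a ∈ B ↔ b ∈ B)

/-- the order with the relations inside `D` erased -/
def flat (r : P → P → Prop) (D : Set P) (a b : P) : Prop := r a b ∧ b ∉ D

omit [Fintype P] in
theorem Mod.flat (h : Mod r D B) : Mod (flat r D) D B where
  so := ⟨fun h1 h2 => ⟨h.so.trans h1.1 h2.1, h2.2⟩, fun a e => h.so.irrefl a e.1⟩
  down := fun _ _ e hb => absurd hb e.2
  out := fun u hu => (h.out u hu).imp (fun k d hd => ⟨k d hd, hu⟩) fun k d hd e => k d hd e.1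
  top := h.top.imp fun _ k => ⟨k.1, fun d hd => ⟨k.2 d hd, k.1⟩⟩
  sub := h.sub
  sep := fun _ _ e hb => absurd hb e.2

/-- same labels outside `D`, same label sets on `B` -/
def Sim (D B : Set P) (L M : P → ℕ) : Prop :=
  (∀ u, u ∉ D → L u = M u) ∧ ∀ a b, L a = M b → (a ∈ B ↔ b ∈ B)

omit [Fintype P] in
theorem Sim.symm (h : Sim D B L M) : Sim D B M L :=
  ⟨fun u hu => (h.1 u hu).symm, fun a b e => (h.2 b a e.symm).symm⟩

theorem mem_iff_of_out (hL : IsLabeling L) (hM : IsLabeling M) (h : ∀ u, u ∉ D → L u = M u)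
    {a b : P} (e : L a = M b) : a ∈ D ↔ b ∈ D := by
  constructor
  · intro ha
    by_contra hb
    exact hb (hL.inj (e.trans (h b hb).symm) ▸ ha)
  · intro hb
    by_contra ha
    exact ha (hM.inj ((h a ha).symm.trans e) ▸ hb)

theorem Mod.entry (h : Mod r D B) (hL : IsLabeling L) {v : P} (hv : L v = 1) (hD : v ∈ D) :
    ∃ u, u ∉ D ∧ (∀ d ∈ D, r d u) ∧ (∀ w, w ∉ D → (∀ d ∈ D, r d w) → L u ≤ L w) ∧
      InChain r L u ∧ ∀ w, w ∉ D → InChain r L w → ReflTransGen (IsSucc r L) u w := by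
  classical
  obtain ⟨u0, h0⟩ := h.top
  obtain ⟨u, hu, hmin⟩ := Finset.exists_min_image
    (Finset.univ.filter fun w => w ∉ D ∧ ∀ d ∈ D, r d w) L ⟨u0, by simpa using h0⟩
  simp only [Finset.mem_filter, Finset.mem_univ, true_and, and_imp] at hu hmin
  have key : ∀ w s, w ∈ D → s ∉ D → IsSucc r L w s → s = u := by
    intro w s hw hs e
    refine hL.inj (le_antisymm (e.2 u (hu.2 w hw)) (hmin s hs ?_))
    exact (h.out s hs).resolve_right fun k => k w hw e.1
  refine ⟨u, hu.1, hu.2, hmin, ?_, ?_⟩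
  · obtain ⟨w, hw, hmax⟩ := Finset.exists_max_image
      (Finset.univ.filter fun w => w ∈ D ∧ InChain r L w) L
      ⟨v, by simpa using ⟨hD, inChain_one hv⟩⟩
    simp only [Finset.mem_filter, Finset.mem_univ, true_and, and_imp] at hw hmax
    obtain ⟨s, hs⟩ := succ_exists L (hu.2 w hw.1)
    have : s ∉ D := fun k =>
      absurd (hmax s k (hw.2.succ hs)) (not_le.2 (chain_label h.so hL hw.2 hs.1))
    exact key w s hw.1 this hs ▸ hw.2.succ hs
  · rintro w hw ⟨v', h1, h2⟩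
    obtain rfl := hL.inj (h1.trans hv.symm)
    induction h2 with
    | refl => exact absurd hD hw
    | @tail a b _ e ih =>
      by_cases ha : a ∈ D
      · rw [key a b ha hw e]
      · exact (ih ha).tail e

omit [Fintype P] in
theorem succ_out (h : Mod r D B) (h' : Mod r' D B) (hrr : ∀ a b, b ∉ D → (r a b ↔ r' a b))
    (hs : ∀ u, u ∉ D → L u = M u) {u y : P} (hu : u ∉ D) (e : IsSucc r L u y) :
    IsSucc r' M u y ∧ y ∉ D := by
  have hy : y ∉ D := fun k => hu (h.down _ _ e.1 k)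
  refine ⟨⟨(hrr _ _ hy).1 e.1, fun z hz => ?_⟩, hy⟩
  have hz' : z ∉ D := fun k => hu (h'.down _ _ hz k)
  rw [← hs y hy, ← hs z hz']
  exact e.2 z ((hrr _ _ hz').2 hz)

omit [Fintype P] in
theorem rtg_out (h : Mod r D B) (h' : Mod r' D B) (hrr : ∀ a b, b ∉ D → (r a b ↔ r' a b))
    (hs : ∀ u, u ∉ D → L u = M u) {u y : P} (hu : u ∉ D) (e : ReflTransGen (IsSucc r L) u y) :
    ReflTransGen (IsSucc r' M) u y ∧ y ∉ D := by
  induction e with
  | refl => exact ⟨ReflTransGen.refl, hu⟩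
  | tail _ e ih =>
    have := succ_out h h' hrr hs ih.2 e
    exact ⟨ih.1.tail this.1, this.2⟩

theorem chain_out (h : Mod r D B) (h' : Mod r' D B) (hrr : ∀ a b, b ∉ D → (r a b ↔ r' a b))
    (hL : IsLabeling L) (hM : IsLabeling M) (hs : ∀ u, u ∉ D → L u = M u) {w : P} (hw : w ∉ D)
    (e : InChain r L w) : InChain r' M w := by
  have e' := e
  obtain ⟨v, h1, h2⟩ := e'
  by_cases hv : v ∈ D
  · obtain ⟨v', h1'⟩ := hM.surj le_rfl ((hL.pos v).trans (hL.le v))
    have hv' : v' ∈ D := (mem_iff_of_out hL hM hs (h1.trans h1'.symm)).1 hv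
    obtain ⟨u, a1, a2, a3, -, a5⟩ := h.entry hL h1 hv
    obtain ⟨u', b1, b2, b3, b4, -⟩ := h'.entry hM h1' hv'
    have : u = u' := by
      refine hL.inj (le_antisymm (a3 u' b1 fun d hd => (hrr _ _ b1).2 (b2 d hd)) ?_)
      rw [hs u a1, hs u' b1]
      exact b3 u a1 fun d hd => (hrr _ _ a1).1 (a2 d hd)
    subst this
    obtain ⟨z, z1, z2⟩ := b4
    exact ⟨z, z1, z2.trans (rtg_out h h' hrr hs a1 (a5 w hw e)).1⟩
  · exact ⟨v, (hs v hv).symm.trans h1, (rtg_out h h' hrr hs hv h2).1⟩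

theorem Mod.not_chain (h : Mod r D B) (hL : IsLabeling L) {v a : P} (hv : L v = 1) (ha : a ∈ D)
    (k : ¬ (v ∈ D ∧ (v ∈ B ↔ a ∈ B))) : ¬ InChain r L a := by
  rintro ⟨v', h1, h2⟩
  obtain rfl := hL.inj (h1.trans hv.symm)
  rcases rtg_le h.so h2 with rfl | e
  · exact k ⟨ha, Iff.rfl⟩
  · exact k ⟨h.down _ _ e ha, h.sep _ _ e ha⟩

theorem sim_half (h : Mod r D B) (h' : Mod r' D B) (hL : IsLabeling L) (hM : IsLabeling M)
    (hs : Sim D B L M) {v a b : P} (hv : L v = 1) (ha : a ∈ D)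
    (k : ¬ (v ∈ D ∧ (v ∈ B ↔ a ∈ B))) (e : promo r L a = promo r' M b) : a ∈ B ↔ b ∈ B := by
  obtain ⟨v', hv'⟩ := hM.surj le_rfl ((hL.pos v).trans (hL.le v))
  obtain ⟨b', hb'⟩ := hM.surj (hL.pos a) (hL.le a)
  have k1 := hs.2 a b' hb'.symm
  have k2 := hs.2 v v' (hv.trans hv'.symm)
  have k3 := mem_iff_of_out hL hM hs.1 (hv.trans hv'.symm)
  have k4 := mem_iff_of_out hL hM hs.1 hb'.symm
  have n1 := h.not_chain hL hv ha k
  have n2 := h'.not_chain hM hv' (k4.1 ha) (by rw [← k1, ← k2, ← k3]; exact k)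
  rw [promo_not n1, ← hb', ← promo_not n2] at e
  rw [← (hM.promo h'.so).inj e]
  exact k1

theorem Sim.promo (h : Mod r D B) (h' : Mod r' D B) (hrr : ∀ a b, b ∉ D → (r a b ↔ r' a b))
    (hL : IsLabeling L) (hM : IsLabeling M) (hs : Sim D B L M) :
    Sim D B (promo r L) (promo r' M) := by
  have hrr' : ∀ a b, b ∉ D → (r' a b ↔ r a b) := fun a b hb => (hrr a b hb).symm
  have out : ∀ u, u ∉ D → Pool.Agent.P.MP_0963f7_co.promo r L u =
      Pool.Agent.P.MP_0963f7_co.promo r' M u := by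
    intro u hu
    rcases promo_cases r hL u with ⟨c, e⟩ | ⟨c, y, hy, e⟩ | ⟨c, hm, e⟩ <;> rw [e]
    · rw [promo_not fun k => c (chain_out h' h hrr' hM hL hs.symm.1 hu k), hs.1 u hu]
    · have := succ_out h h' hrr hs.1 hu hy
      rw [promo_succ hM (chain_out h h' hrr hL hM hs.1 hu c) this.1, hs.1 y this.2]
    · rw [promo_max (chain_out h h' hrr hL hM hs.1 hu c) fun z hz =>
        hm z ((hrr _ _ fun k => hu (h'.down _ _ hz k)).2 hz)]
  refine ⟨out, fun a b e => ?_⟩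
  have hD := mem_iff_of_out (hL.promo h.so) (hM.promo h'.so) out e
  by_cases ha : a ∈ D
  · obtain ⟨v, hv⟩ := hL.surj le_rfl ((hL.pos a).trans (hL.le a))
    obtain ⟨v', hv'⟩ := hM.surj le_rfl ((hL.pos a).trans (hL.le a))
    by_cases k : v ∈ D ∧ (v ∈ B ↔ a ∈ B)
    · by_cases k' : v' ∈ D ∧ (v' ∈ B ↔ b ∈ B)
      · rw [← k.2, ← k'.2]
        exact hs.2 v v' (hv.trans hv'.symm)
      · exact (sim_half h' h hM hL hs.symm hv' (hD.1 ha) k' e.symm).symm
    · exact sim_half h h' hL hM hs hv ha k e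
  · exact iff_of_false (fun k => ha (h.sub k)) fun k => ha (hD.2 (h.sub k))

theorem Mod.sim_iter (h : Mod r D B) (hL : IsLabeling L) (t : ℕ) :
    Sim D B ((promo r)^[t] L) ((promo (Pool.Agent.P.MP_0963f7_co.flat r D))^[t] L) := by
  induction t with
  | zero => exact ⟨fun _ _ => rfl, fun a b e => by rw [hL.inj e]⟩
  | succ t ih =>
    rw [Function.iterate_succ_apply', Function.iterate_succ_apply']
    exact ih.promo h h.flat (fun a b hb => ⟨fun k => ⟨k, hb⟩, fun k => k.1⟩) (hL.iter h.so t)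
      (hL.iter h.flat.so t)

omit [Fintype P] in
theorem Mod.swap_aut [DecidableEq P] (h : Mod r D B) {d e : P} (hd : d ∈ D) (he : e ∈ D)
    (a b : P) : Pool.Agent.P.MP_0963f7_co.flat r D (Equiv.swap d e a) (Equiv.swap d e b) ↔
      Pool.Agent.P.MP_0963f7_co.flat r D a b := by
  have h1 : ∀ a, Equiv.swap d e a ∈ D ↔ a ∈ D := by
    intro a
    rw [Equiv.swap_apply_def]
    split_ifs with k1 k2
    · rw [k1]; exact iff_of_true he hd
    · rw [k2]; exact iff_of_true hd he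
    · rfl
  have h2 : ∀ a, a ∉ D → Equiv.swap d e a = a := fun a ha =>
    Equiv.swap_apply_of_ne_of_ne (fun k => ha (k ▸ hd)) fun k => ha (k ▸ he)
  unfold Pool.Agent.P.MP_0963f7_co.flat
  rw [h1]
  refine and_congr_left fun hb => ?_
  rw [h2 b hb]
  by_cases ha : a ∈ D
  · rcases h.out b hb with k | k
    · exact iff_of_true (k _ ((h1 a).2 ha)) (k _ ha)
    · exact iff_of_false (k _ ((h1 a).2 ha)) (k _ ha)
  · rw [h2 a ha]

end Pool.Agent.P.MP_0963f7_co
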