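import Pool.Agent.P.MP_0963f7_co.Main

namespace Pool.Agent.P.MP_0963f7_co

open Finset

section Sides

variable {P : Type} [Fintype P] {r : P → P → Prop} {L : P → ℕ} {B : Set P}

/-- a label other than `1` stays on its side of a union of components -/
theorem side_promo (hB : ∀ a b, r a b → (a ∈ B ↔ b ∈ B)) (hL : IsLabeling L) {u : P} {c : ℕ}
    (hc : 1 ≤ c) (hu : L u = c + 1) : ∃ w, promo r L w = c ∧ (w ∈ B ↔ u ∈ B) := by
  by_cases k : InChain r L u
  · rcases k.pred with e | ⟨w, h1, h2⟩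
    · omega
    · exact ⟨w, by rw [promo_succ hL h1 h2]; omega, hB _ _ h2.1⟩
  · exact ⟨u, by rw [promo_not k]; omega, Iff.rfl⟩

theorem side_iter (hr : SO r) (hB : ∀ a b, r a b → (a ∈ B ↔ b ∈ B)) (t : ℕ) :
    ∀ {L : P → ℕ} {u : P} {c : ℕ}, IsLabeling L → 1 ≤ c → L u = c + t →
      ∃ w, (promo r)^[t] L w = c ∧ (w ∈ B ↔ u ∈ B) := by
  induction t with
  | zero => exact fun {L u c} _ _ h => ⟨u, h, Iff.rfl⟩
  | succ t ih =>
    intro L u c hL hc hu
    obtain ⟨w, h1, h2⟩ := side_promo hB hL (c := c + t) (by omega) hu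
    obtain ⟨w', h3, h4⟩ := ih (hL.promo hr) hc h1
    exact ⟨w', by rw [Function.iterate_succ_apply]; exact h3, h4.trans h2⟩

theorem promo_swap_side (hB : ∀ a b, r a b → (a ∈ B ↔ b ∈ B)) (hL : IsLabeling L) {u v : P}
    {c : ℕ} (hc : 1 ≤ c) (hu : L u = c + 1) (hv : L v = c + 2) (huv : ¬ (u ∈ B ↔ v ∈ B)) :
    promo r (Equiv.swap (c + 1) (c + 2) ∘ L) = Equiv.swap c (c + 1) ∘ promo r L := by
  have hL' := hL.swap (c := c + 1) (by omega) hv
  have hne : ∀ {a b z}, r a b → r a z → L b = c + 1 → L z ≠ c + 2 := by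
    intro a b z h1 h2 e1 e2
    rw [hL.inj (e1.trans hu.symm)] at h1
    rw [hL.inj (e2.trans hv.symm)] at h2
    exact huv ((hB _ _ h1).symm.trans (hB _ _ h2))
  have hs : IsSucc r (Equiv.swap (c + 1) (c + 2) ∘ L) = IsSucc r L := by
    funext a b
    refine propext (and_congr_right fun hab => forall₂_congr fun z hz => ?_)
    have h1 := hne hab hz
    have h2 := hne hz hab
    simp only [Function.comp, Equiv.swap_apply_def]
    split_ifs <;> omega
  have hch : ∀ a, InChain r (Equiv.swap (c + 1) (c + 2) ∘ L) a ↔ InChain r L a := by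
    intro a
    unfold InChain
    rw [hs]
    refine exists_congr fun v => and_congr_left fun _ => ?_
    simp only [Function.comp, Equiv.swap_apply_def]
    split_ifs <;> omega
  have key : ∀ y, Equiv.swap (c + 1) (c + 2) (L y) - 1 = Equiv.swap c (c + 1) (L y - 1) := by
    intro y
    have := hL.pos y
    simp only [Equiv.swap_apply_def]
    split_ifs <;> omega
  funext a
  rcases promo_cases r hL a with ⟨h, e⟩ | ⟨h, y, hy, e⟩ | ⟨h, hm, e⟩
  · rw [promo_not (mt (hch a).1 h), Function.comp, Function.comp, e, key]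
  · rw [promo_succ hL' ((hch a).2 h) (hs ▸ hy), Function.comp, Function.comp, e, key]
  · rw [promo_max ((hch a).2 h) hm, Function.comp, e, Equiv.swap_apply_of_ne_of_ne] <;>
      have := hL.le v <;> omega

theorem iter_swap_side (hr : SO r) (hB : ∀ a b, r a b → (a ∈ B ↔ b ∈ B)) (t : ℕ) :
    ∀ {L : P → ℕ} {u v : P} {c : ℕ}, IsLabeling L → 1 ≤ c → L u = c + t → L v = c + t + 1 →
      ¬ (u ∈ B ↔ v ∈ B) → (promo r)^[t] (Equiv.swap (c + t) (c + t + 1) ∘ L) =
        Equiv.swap c (c + 1) ∘ (promo r)^[t] L := by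
  induction t with
  | zero => exact fun _ _ _ _ _ => rfl
  | succ t ih =>
    intro L u v c hL hc hu hv huv
    rw [Function.iterate_succ_apply, Function.iterate_succ_apply]
    have := promo_swap_side hB hL (c := c + t) (by omega) hu hv huv
    obtain ⟨u', u1, u2⟩ := side_promo hB hL (c := c + t) (by omega) hu
    obtain ⟨v', v1, v2⟩ := side_promo hB hL (c := c + t + 1) (by omega) hv
    rw [← ih (hL.promo hr) hc u1 v1 (by rw [u2, v2]; exact huv), ← this]
    rfl

theorem sym_side_le (hr : SO r) (hB : ∀ a b, r a b → (a ∈ B ↔ b ∈ B)) {t : ℕ}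
    (hn : Fintype.card P = t + 3) (x : P) {c c' : ℕ} (k : c + c' = 3) (c1 : 1 ≤ c)
    (c2 : 1 ≤ c') : (Y r t x B c c').card ≤ (Y r t x B c' c).card := by
  refine card_le_card_of_injOn (fun L => Equiv.swap (1 + t) (1 + t + 1) ∘ L) ?_
    fun L _ L' _ e => (Equiv.swap (1 + t) (1 + t + 1)).injective.comp_left e
  intro L hL
  obtain ⟨hL, e, ⟨a, ha, ea⟩, a', ha', m, ea'⟩ := mem_Y.1 (mem_coe.1 hL)
  have hL' := hL.iter hr t
  obtain ⟨u, hu⟩ := hL.surj (k := 1 + t) (by omega) (by omega)
  obtain ⟨v, hv⟩ := hL.surj (k := 1 + t + 1) (by omega) (by omega)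
  obtain ⟨u', u1, u2⟩ := side_iter hr hB t hL le_rfl hu
  obtain ⟨v', v1, v2⟩ := side_iter hr hB t hL (c := 2) (u := v) (by omega) (by omega)
  have huv : ¬ (u ∈ B ↔ v ∈ B) := by
    rw [← u2, ← v2]
    by_cases j : c = 1
    · rw [hL'.inj (show (promo r)^[t] L u' = (promo r)^[t] L a by omega),
        hL'.inj (show (promo r)^[t] L v' = (promo r)^[t] L a' by omega)]
      exact fun i => ha' (i.1 ha)
    · rw [hL'.inj (show (promo r)^[t] L u' = (promo r)^[t] L a' by omega),
        hL'.inj (show (promo r)^[t] L v' = (promo r)^[t] L a by omega)]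
      exact fun i => ha' (i.2 ha)
  have s := iter_swap_side hr hB t hL le_rfl hu hv huv
  refine mem_coe.2 (mem_Y.2 ⟨hL.swap (by omega) hv, ?_, ⟨a, ha, ?_⟩, a', ha', m, ?_⟩)
  · show Equiv.swap (1 + t) (1 + t + 1) (L x) = _
    rw [e, Equiv.swap_apply_of_ne_of_ne] <;> omega
  · show (promo r)^[t] (Equiv.swap (1 + t) (1 + t + 1) ∘ L) a = _
    rw [s, Function.comp, ea, Equiv.swap_apply_def]
    split_ifs <;> omega
  · show (promo r)^[t] (Equiv.swap (1 + t) (1 + t + 1) ∘ L) a' = _
    rw [s, Function.comp, ea', Equiv.swap_apply_def]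
    split_ifs <;> omega

end Sides

variable {P Q : Type} [Fintype P] [PartialOrder P] [PartialOrder Q] {φ : P → Q}

/-- the hypotheses of the forest theorem -/
structure Fo (φ : P → Q) : Prop where
  cov : ∀ q : Q, ¬ IsMax q → ∃! q', q ⋖ q'
  surj : Function.Surjective φ
  ord : ∀ x y, φ x ≠ φ y → (x < y ↔ φ x < φ y)
  leaf : ∀ l : Q, IsMin l → ∃! m, Minimal (fun a => φ a = l) m

omit [Fintype P] in
theorem Fo.cover_le [Finite Q] (h : Fo φ) {a a' b : Q} (e : a ⋖ a') (hb : a < b) : a' ≤ b := by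
  obtain ⟨c, hc, hcb⟩ := exists_covBy_le_of_lt hb
  rw [(h.cov a (not_isMax_of_lt hb)).unique e hc]
  exact hcb

omit [Fintype P] in
theorem Fo.total [Finite Q] (h : Fo φ) (a : Q) : ∀ b c, a ≤ b → a ≤ c → b ≤ c ∨ c ≤ b := by
  induction a using WellFoundedGT.induction with
  | ind a ih =>
    intro b c hb hc
    rcases hb.eq_or_lt with rfl | hb
    · exact Or.inl hc
    rcases hc.eq_or_lt with rfl | hc
    · exact Or.inr hb.le
    obtain ⟨a', ha', -⟩ := exists_covBy_le_of_lt hb
    exact ih a' ha'.lt b c (h.cover_le ha' hb) (h.cover_le ha' hc)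

omit [Fintype P] in
theorem Fo.mono (h : Fo φ) {a b : P} (e : a < b) : φ a ≤ φ b := by
  by_cases k : φ a = φ b
  · exact k.le
  · exact ((h.ord a b k).1 e).le

omit [Fintype P] in
theorem Fo.lt (h : Fo φ) {a b : P} (e : φ a < φ b) : a < b := (h.ord a b e.ne).2 e

theorem Fo.least (h : Fo φ) {x : P} (hx : ∀ z, ¬ z < x) {a : P} (e : φ a = φ x) (ne : a ≠ x) :
    x < a := by
  have leaf : IsMin (φ x) := by
    intro b hb
    by_contra k
    obtain ⟨w, rfl⟩ := h.surj b
    exact hx w (h.lt (lt_of_le_of_ne hb fun j => k j.ge))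
  obtain ⟨m, hm1, hm2⟩ := Finite.exists_le_minimal (p := fun b => φ b = φ x) (a := a) e
  have hxm : Minimal (fun b => φ b = φ x) x :=
    ⟨rfl, fun b _ hb => (hb.eq_or_lt.resolve_right (hx b)).ge⟩
  rw [(h.leaf _ leaf).unique hm2 hxm] at hm1
  exact lt_of_le_of_ne hm1 ne.symm

theorem Fo.mod (h : Fo φ) {q q' : Q} (hq : q ⋖ q') :
    Mod ((· < ·) : P → P → Prop) {a | φ a < q'} {a | φ a ≤ q} := by
  have : Finite Q := Finite.of_surjective φ h.surj
  refine ⟨so_lt, fun a b e hb => (h.mono e).trans_lt hb, fun u hu => ?_, ?_,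
    fun a ha => lt_of_le_of_lt ha hq.lt, fun a b e hb => ⟨fun ha => ?_, (h.mono e).trans⟩⟩
  · by_cases k : q' ≤ φ u
    · exact Or.inl fun d hd => h.lt (lt_of_lt_of_le hd k)
    · refine Or.inr fun d hd e => ?_
      rcases h.total (φ d) q' (φ u) (le_of_lt hd) (h.mono e) with j | j
      · exact k j
      · exact hu (lt_of_le_of_ne j fun e => k e.ge)
  · obtain ⟨u, rfl⟩ := h.surj q'
    exact ⟨u, lt_irrefl _, fun d hd => h.lt hd⟩
  · rcases h.total (φ a) q (φ b) ha (h.mono e) with j | j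
    · rcases j.eq_or_lt with j | j
      · exact j.ge
      · exact absurd hb (hq.2 j)
    · exact j

theorem Fo.sym (h : Fo φ) {t : ℕ} (hn : Fintype.card P = t + 3) {x y : P} (hmin : ∀ z, ¬ z < x)
    (hyx : y ≠ x) (q : Q) : φ x ≤ q → φ y ≤ q →
    (Y (· < ·) t x {a | φ a ≤ q} 1 2).card = (Y (· < ·) t x {a | φ a ≤ q} 2 1).card := by
  have : Finite Q := Finite.of_surjective φ h.surj
  induction q using WellFoundedGT.induction with
  | ind q ih =>
    intro hxq hyq
    by_cases hm : IsMax q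
    · have hB : ∀ a b : P, a < b → (a ∈ {a | φ a ≤ q} ↔ b ∈ {a | φ a ≤ q}) := by
        refine fun a b e => ⟨fun ha => ?_, (h.mono e).trans⟩
        rcases h.total (φ a) q (φ b) ha (h.mono e) with j | j
        · exact hm j
        · exact j
      exact le_antisymm (sym_side_le so_lt hB hn x rfl le_rfl (by omega))
        (sym_side_le so_lt hB hn x rfl (by omega) le_rfl)
    · obtain ⟨b, hb⟩ := not_isMax_iff.1 hm
      obtain ⟨q', hq', -⟩ := exists_covBy_le_of_lt hb
      exact step (h.mod hq') (y := y) hn hxq hmin (lt_of_le_of_lt hyq hq'.lt) hyx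
        (fun a ha => le_of_lt ha)
        (fun a ha k d hd => h.lt (lt_of_lt_of_le hd (eq_of_le_of_not_lt ha k).ge))
        (ih q' hq'.lt (hxq.trans hq'.lt.le) (hyq.trans hq'.lt.le))

open Classical in
theorem Fo.big (h : Fo φ) {t : ℕ}
    (hn : Fintype.card P = t + 3) :
    ((Lab P).filter fun L => HasSortingTime L (t + 2)).card ≤
      ((Lab P).filter fun L => HasSortingTime L (t + 1)).card := by
  have : Nonempty P := Fintype.card_pos_iff.1 (by omega)
  set T := (Lab P).filter fun L => HasSortingTime L (t + 2) with hT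
  set S := (Lab P).filter fun L => HasSortingTime L (t + 1) with hS
  set A : ℕ → (P → ℕ) → Prop := fun c L =>
    ∃ u v, u < v ∧ (promo (· < ·))^[t] L u = c ∧ (promo (· < ·))^[t] L v = 1 with hA
  rw [← card_filter_add_card_filter_not (s := T) (A 3),
    ← card_filter_add_card_filter_not (s := S) (A 2)]
  have facts : ∀ L ∈ T, IsLabeling L ∧ ∃ x v, x < v ∧ (∀ z, ¬ z < x) ∧ L x = Fintype.card P ∧
      (promo (· < ·))^[t] L x = 3 ∧ (promo (· < ·))^[t + 1] L x = 2 ∧
      (promo (· < ·))^[t + 1] L v = 1 := by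
    intro L hL
    obtain ⟨hL, k⟩ := mem_filter.1 hL
    rw [mem_Lab] at hL
    obtain ⟨x, v, h1, h2, h3, h4, h5⟩ := tangled_inv hL (t := t + 1) hn k
    refine ⟨hL, x, v, h1, h2, h3, ?_, h4, h5⟩
    rw [iter_min h2 t (by omega)]
    omega
  refine Nat.add_le_add ?_ ?_
  · refine card_le_card_of_injOn (fun L => Equiv.swap (t + 2) (t + 3) ∘ L) ?_
      fun L _ L' _ e => (Equiv.swap (t + 2) (t + 3)).injective.comp_left e
    intro L hL
    obtain ⟨hLT, u, w, huw, hu, hw⟩ := mem_filter.1 (mem_coe.1 hL)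
    obtain ⟨hL, x, v, h1, h2, h3, h4, h5, h6⟩ := facts L hLT
    obtain rfl : u = x := (hL.iter so_lt t).inj (hu.trans h4.symm)
    have hL' : IsLabeling (Equiv.swap (t + 2) (t + 3) ∘ L) :=
      hL.swap (c := t + 2) (by omega) (h3.trans hn)
    have e1 := iter_swap so_lt h2 t (c := 2) hL (by omega) (by omega)
    have e2 := iter_swap so_lt h2 (t + 1) (c := 1) hL (by omega) (by omega)
    rw [show 2 + t = t + 2 by omega] at e1
    rw [show 1 + (t + 1) = t + 2 by omega] at e2
    have a1 : (promo (· < ·))^[t] (Equiv.swap (t + 2) (t + 3) ∘ L) u = 2 := by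
      rw [e1, Function.comp, h4]; decide
    have a2 : (promo (· < ·))^[t] (Equiv.swap (t + 2) (t + 3) ∘ L) w = 1 := by
      rw [e1, Function.comp, hw]; decide
    refine mem_coe.2 (mem_filter.2 ⟨mem_filter.2 ⟨mem_Lab.2 hL', sorting_succ hL' (fun k => ?_) ?_⟩,
      u, w, huw, a1, a2⟩)
    · have := k u w huw (by omega)
      omega
    · have hg := good_iter so_lt hL' (t + 1)
      rw [show Fintype.card P - (t + 1) = 2 by omega] at hg
      refine hg.zero_of_two so_lt (hL'.iter so_lt _) fun a b hab _ hb => h2 a ?_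
      have : (promo (· < ·))^[t + 1] (Equiv.swap (t + 2) (t + 3) ∘ L) u = 1 := by
        rw [e2, Function.comp, h5]; decide
      rwa [(hL'.iter so_lt _).inj (hb.trans this.symm)] at hab
  · refine card_le_fiberwise
      (fun L => (Function.invFun L (t + 3), φ (Function.invFun ((promo (· < ·))^[t] L) 2)))
      (fun L => (Function.invFun L (t + 3), φ (Function.invFun ((promo (· < ·))^[t] L) 1))) ?_
    rintro ⟨x, p⟩
    have invF : ∀ {M : P → ℕ}, IsLabeling M → ∀ {a c}, M a = c → Function.invFun M c = a :=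
      fun hM a c e => hM.inj ((Function.invFun_eq ⟨a, e⟩).trans e.symm)
    have key : ∀ L ∈ (T.filter fun L => ¬ A 3 L).filter fun L =>
        (Function.invFun L (t + 3), φ (Function.invFun ((promo (· < ·))^[t] L) 2)) = (x, p),
        (∀ z, ¬ z < x) ∧ φ x ≤ p ∧ (∀ a, φ a ≤ p → a ≠ x → φ a = p ∧ x < a) ∧
          (∃ y, y ≠ x ∧ φ y ≤ p) ∧ L ∈ Y (· < ·) t x {a | φ a ≤ p} 2 1 := by
      intro L hL0
      obtain ⟨hL1, e⟩ := mem_filter.1 hL0
      clear hL0
      obtain ⟨hLT, hA3⟩ := mem_filter.1 hL1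
      obtain ⟨hL, x', v, h1, h2, h3, h4, h5, h6⟩ := facts L hLT
      have hL' := hL.iter (r := (· < ·)) so_lt t
      rw [Prod.mk.injEq, invF hL (h3.trans hn)] at e
      obtain ⟨rfl, e⟩ := e
      obtain ⟨z, hz⟩ := hL'.surj le_rfl (by omega)
      have xz : ¬ x' < z := fun k => hA3 ⟨x', z, k, h4, hz⟩
      rw [Function.iterate_succ_apply'] at h6
      have vz : v ≠ z := fun k => xz (k ▸ h1)
      have v1 : 2 ≤ (promo (· < ·))^[t] L v := by
        have := hL'.pos v
        have : (promo (· < ·))^[t] L v ≠ 1 := fun k => vz (hL'.inj (k.trans hz.symm))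
        omega
      have vc : ¬ InChain (· < ·) ((promo (· < ·))^[t] L) v := by
        intro c
        rcases promo_cases (· < ·) hL' v with ⟨k, -⟩ | ⟨-, y, hy, k⟩ | ⟨-, -, k⟩
        · exact k c
        · have := chain_label so_lt hL' c hy.1
          omega
        · omega
      have v2 : (promo (· < ·))^[t] L v = 2 := by
        rw [promo_not vc] at h6
        omega
      have zv : ¬ z < v := by
        intro k
        refine vc ((inChain_one hz).succ ⟨k, fun w hw => ?_⟩)
        have := chain_label so_lt hL' (inChain_one hz) hw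
        omega
      have small : ∀ w, (promo (· < ·))^[t] L w ≤ 3 → w = x' ∨ w = v ∨ w = z := by
        intro w hw
        have := hL'.pos w
        by_cases k1 : (promo (· < ·))^[t] L w = 3
        · exact Or.inl (hL'.inj (by omega))
        by_cases k2 : (promo (· < ·))^[t] L w = 2
        · exact Or.inr (Or.inl (hL'.inj (by omega)))
        · exact Or.inr (Or.inr (hL'.inj (by omega)))
      rw [invF hL' v2] at e
      subst e
      have xp : φ x' ≤ φ v := h.mono h1
      have hp : ∀ a, φ a ≤ φ v → a ≠ x' → φ a = φ v ∧ x' < a := by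
        intro a ha ne
        have j : φ a = φ v := by
          refine ha.eq_or_lt.resolve_right fun ha => ?_
          rcases small a (below_small so_lt hL hn (h.lt ha) (by omega)) with k | k | k
          · exact ne k
          · exact absurd ha (k ▸ lt_irrefl _)
          · exact absurd (h.lt ha) (k ▸ zv)
        refine ⟨j, ?_⟩
        rcases xp.eq_or_lt with i | i
        · exact h.least h2 (j.trans i.symm) ne
        · exact h.lt (j ▸ i)
      refine ⟨h2, xp, hp, ⟨v, h1.ne', le_rfl⟩, mem_Y.2 ⟨hL, h3, ⟨v, le_rfl, v2⟩, z, fun k => ?_,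
        fun w hw => ?_, hz⟩⟩
      · refine xz (hp z k fun j => ?_).2
        rw [j] at hz
        omega
      · rcases small w (below_small so_lt hL hn hw (by omega)) with k | k | k
        · exact xz (k ▸ hw)
        · exact xz (h1.trans (k ▸ hw))
        · exact lt_irrefl _ (k ▸ hw)
    rcases ((T.filter fun L => ¬ A 3 L).filter fun L =>
        (Function.invFun L (t + 3), φ (Function.invFun ((promo (· < ·))^[t] L) 2)) = (x, p)
      ).eq_empty_or_nonempty with e | ⟨L0, hL0⟩
    · rw [e]; exact Nat.zero_le _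
    obtain ⟨h2, xp, hp, ⟨y, yx, yp⟩, -⟩ := key L0 hL0
    refine (card_le_card fun L hL => (key L hL).2.2.2.2).trans ?_
    rw [← h.sym hn h2 yx p xp yp]
    refine card_le_card fun L hL => ?_
    obtain ⟨hL, h3, ⟨a, ha, ea⟩, z, hz, mz, ez⟩ := mem_Y.1 hL
    have hL' := hL.iter (r := (· < ·)) so_lt t
    have x3 : (promo (· < ·))^[t] L x = 3 := by
      rw [iter_min h2 t (by omega)]
      omega
    obtain ⟨ap, xa⟩ := hp a ha fun j => by
      rw [j] at ea
      omega
    refine mem_filter.2 ⟨mem_filter.2 ⟨mem_filter.2 ⟨mem_Lab.2 hL,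
      sorting_succ hL (fun k => ?_) ?_⟩, ?_⟩, ?_⟩
    · have := k x a xa (by omega)
      omega
    · have hg := good_iter so_lt hL (t + 1)
      rw [show Fintype.card P - (t + 1) = 2 by omega] at hg
      refine hg.zero_of_two so_lt (hL.iter so_lt _) fun u v huv _ hv => mz u ?_
      have : (promo (· < ·))^[t + 1] L z = 1 := by
        rw [Function.iterate_succ_apply', promo_not (not_chain_of_min mz (by omega)), ez]
      rwa [(hL.iter so_lt _).inj (hv.trans this.symm)] at huv
    · rintro ⟨u, v, huv, hu, hv⟩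
      rw [hL'.inj (hu.trans ez.symm), hL'.inj (hv.trans ea.symm)] at huv
      exact hz ((h.mono huv).trans ha)
    · rw [invF hL (h3.trans hn), invF hL' ea, ap]

theorem forest_main (P Q : Type) [Fintype P] [PartialOrder P] [PartialOrder Q] (φ : P → Q)
    (hQ : ∀ q : Q, ¬ IsMax q → ∃! q', q ⋖ q') (hsurj : Function.Surjective φ)
    (hord : ∀ x y, φ x ≠ φ y → (x < y ↔ φ x < φ y))
    (hleaf : ∀ l : Q, IsMin l → ∃! m, Minimal (fun a => φ a = l) m) (hn : 2 ≤ Fintype.card P) :
    {L : P → ℕ | IsLabeling L ∧ HasSortingTime L (Fintype.card P - 1)}.ncard ≤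
      {L : P → ℕ | IsLabeling L ∧ HasSortingTime L (Fintype.card P - 2)}.ncard := by
  classical
  have h : Fo φ := ⟨hQ, hsurj, hord, hleaf⟩
  have e : ∀ k, {L : P → ℕ | IsLabeling L ∧ HasSortingTime L k} =
      ((Lab P).filter fun L => HasSortingTime L k : Finset (P → ℕ)) := by
    intro k
    ext L
    simp [mem_Lab]
  rw [e, e, Set.ncard_coe_finset, Set.ncard_coe_finset]
  rcases hn.eq_or_lt with h2 | h2
  · rw [← h2]
    convert main_two h2.symm
  · obtain ⟨t, ht⟩ : ∃ t, Fintype.card P = t + 3 := ⟨Fintype.card P - 3, by omega⟩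
    rw [ht]
    convert h.big ht <;> omega

/-- The statement of Q1 (rooted tree, deflated leaves) as a special case of `forest_main`. -/
theorem q1_of_forest (P Q : Type) [Fintype P] [PartialOrder P] [PartialOrder Q] (φ : P → Q)
    (hQ : IsRootedTree Q) (hφ : IsDeflatedInflation φ) (hn : 2 ≤ Fintype.card P) :
    {L : P → ℕ | IsLabeling L ∧ HasSortingTime L (Fintype.card P - 1)}.ncard ≤
      {L : P → ℕ | IsLabeling L ∧ HasSortingTime L (Fintype.card P - 2)}.ncard := by
  obtain ⟨root, h1, -, h3⟩ := hQ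
  exact forest_main P Q φ (fun q hq => h3 q fun e => hq (e ▸ h1)) hφ.1 hφ.2.2.1
    (fun l _ => hφ.2.1 l) hn

end Pool.Agent.P.MP_0963f7_co
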