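import Pool.Agent.P.MP_0963f7_co.Count

namespace Pool.Agent.P.MP_0963f7_co

open Finset

variable {P Q : Type} [Fintype P] [PartialOrder P] [PartialOrder Q] {φ : P → Q}

omit [Fintype P] in
theorem so_lt : SO ((· < ·) : P → P → Prop) := ⟨lt_trans, lt_irrefl⟩

theorem IsRootedTree.cover_le [Finite Q] (hQ : IsRootedTree Q) {a a' b : Q} (h : a ⋖ a')
    (hb : a < b) : a' ≤ b := by
  obtain ⟨root, h1, -, h3⟩ := hQ
  obtain ⟨c, hc, hcb⟩ := exists_covBy_le_of_lt hb
  have : a ≠ root := fun e => not_isMax_of_lt hb (e ▸ h1)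
  rw [(h3 a this).unique h hc]
  exact hcb

theorem IsRootedTree.total [Finite Q] (hQ : IsRootedTree Q) (a : Q) :
    ∀ b c, a ≤ b → a ≤ c → b ≤ c ∨ c ≤ b := by
  induction a using WellFoundedGT.induction with
  | ind a ih =>
    intro b c hb hc
    rcases hb.eq_or_lt with rfl | hb
    · exact Or.inl hc
    rcases hc.eq_or_lt with rfl | hc
    · exact Or.inr hb.le
    obtain ⟨a', ha', -⟩ := exists_covBy_le_of_lt hb
    exact ih a' ha'.lt b c (hQ.cover_le ha' hb) (hQ.cover_le ha' hc)

omit [Fintype P] in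
theorem IsDeflatedInflation.mono (h : IsDeflatedInflation φ) {a b : P} (e : a < b) :
    φ a ≤ φ b := by
  by_cases k : φ a = φ b
  · exact k.le
  · exact ((h.2.2.1 a b k).1 e).le

omit [Fintype P] in
theorem IsDeflatedInflation.lt (h : IsDeflatedInflation φ) {a b : P} (e : φ a < φ b) : a < b :=
  (h.2.2.1 a b e.ne).2 e

theorem mod_of_cover (hQ : IsRootedTree Q) (h : IsDeflatedInflation φ) {q q' : Q} (hq : q ⋖ q') :
    Mod ((· < ·) : P → P → Prop) {a | φ a < q'} {a | φ a ≤ q} := by
  have : Finite Q := Finite.of_surjective φ h.1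
  refine ⟨so_lt, fun a b e hb => (h.mono e).trans_lt hb, fun u hu => ?_, ?_,
    fun a ha => lt_of_le_of_lt ha hq.lt, fun a b e hb => ⟨fun ha => ?_, (h.mono e).trans⟩⟩
  · by_cases k : q' ≤ φ u
    · exact Or.inl fun d hd => h.lt (lt_of_lt_of_le hd k)
    · refine Or.inr fun d hd e => ?_
      rcases hQ.total (φ d) q' (φ u) (le_of_lt hd) (h.mono e) with j | j
      · exact k j
      · exact hu (lt_of_le_of_ne j fun e => k e.ge)
  · obtain ⟨u, rfl⟩ := h.1 q'
    exact ⟨u, lt_irrefl _, fun d hd => h.lt hd⟩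
  · rcases hQ.total (φ a) q (φ b) ha (h.mono e) with j | j
    · rcases j.eq_or_lt with j | j
      · exact j.ge
      · exact absurd hb (hq.2 j)
    · exact j

theorem sym (hQ : IsRootedTree Q) (h : IsDeflatedInflation φ) {t : ℕ}
    (hn : Fintype.card P = t + 3) {x : P} (hmin : ∀ z, ¬ z < x) (q : Q) : φ x < q →
    (Y (· < ·) t x {a | φ a ≤ q} 1 2).card = (Y (· < ·) t x {a | φ a ≤ q} 2 1).card := by
  have : Finite Q := Finite.of_surjective φ h.1
  induction q using WellFoundedGT.induction with
  | ind q ih =>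
    intro hxq
    by_cases hm : IsMax q
    · have : ∀ c c', Y (· < ·) t x {a | φ a ≤ q} c c' = ∅ := by
        intro c c'
        rw [eq_empty_iff_forall_notMem]
        intro L hL
        obtain ⟨-, -, -, a, ha, -⟩ := mem_Y.1 hL
        obtain ⟨root, -, h2, -⟩ := hQ
        obtain ⟨m, hm1, hm2⟩ : ∃ m, φ a ≤ m ∧ IsMax m := by
          obtain ⟨m, hm1, hm2⟩ := Finite.exists_le_maximal (p := fun _ : Q => True) (a := φ a) trivial
          exact ⟨m, hm1, fun b hb => hm2.2 trivial hb⟩
        exact ha (hm1.trans_eq ((h2 m hm2).trans (h2 q hm).symm))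
      rw [this, this]
    · obtain ⟨b, hb⟩ := not_isMax_iff.1 hm
      obtain ⟨q', hq', -⟩ := exists_covBy_le_of_lt hb
      obtain ⟨y, rfl⟩ := h.1 q
      exact step (mod_of_cover hQ h hq') (y := y) hn hxq.le hmin hq'.lt
        (fun e => hxq.ne (congrArg φ e.symm)) (fun a ha => le_of_lt ha)
        (fun a ha k d hd => h.lt (lt_of_lt_of_le hd (eq_of_le_of_not_lt ha k).ge))
        (ih q' hq'.lt (hxq.trans hq'.lt))

theorem strictMono_iff {L : P → ℕ} (hL : IsLabeling L) : StrictMono L ↔ Good (· < ·) 0 L :=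
  ⟨fun h _ _ e _ => h e, fun h u v e => h u v e (hL.pos u)⟩

theorem sorting_succ {L : P → ℕ} (hL : IsLabeling L) {k : ℕ}
    (h1 : ¬ Good (· < ·) 0 ((promo (· < ·))^[k] L))
    (h2 : Good (· < ·) 0 ((promo (· < ·))^[k + 1] L)) : HasSortingTime L (k + 1) := by
  refine ⟨(strictMono_iff (hL.iter so_lt _)).2 h2, fun j hj => ?_⟩
  by_contra hc
  have := good_zero_iter so_lt (hL.iter so_lt j) ((strictMono_iff (hL.iter so_lt _)).1 hj) (k - j)
  rw [← Function.iterate_add_apply, show k - j + j = k by omega] at this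
  exact h1 this

theorem tangled_inv {L : P → ℕ} (hL : IsLabeling L) {t : ℕ} (hn : Fintype.card P = t + 2)
    (h : HasSortingTime L (t + 1)) : ∃ x v, x < v ∧ (∀ z, ¬ z < x) ∧ L x = Fintype.card P ∧
      (promo (· < ·))^[t] L x = 2 ∧ (promo (· < ·))^[t] L v = 1 := by
  have hg := good_iter so_lt hL t
  rw [show Fintype.card P - t = 2 by omega] at hg
  have hL' := hL.iter (r := (· < ·)) so_lt t
  by_contra hc
  push Not at hc
  have key : ∀ u v, u < v → (promo (· < ·))^[t] L u = 2 → (promo (· < ·))^[t] L v ≠ 1 := by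
    intro u v huv hu hv
    refine hc u v huv (fun z hz => ?_) ?_ hu hv
    · have h1 := hL'.pos z
      by_cases k : 2 < (promo (· < ·))^[t] L z
      · have := hg z u hz k
        omega
      by_cases k2 : (promo (· < ·))^[t] L z = 2
      · exact hz.ne (hL'.inj (k2.trans hu.symm))
      · exact (hz.trans huv).ne (hL'.inj (by omega))
    · have := inv_back_iter so_lt hL t (c := 1) huv hu hv
      omega
  have := h.2 ((strictMono_iff hL').2 (hg.zero_of_two so_lt hL' key))
  omega

theorem card_le_fiberwise {α β : Type} [DecidableEq β] {s s' : Finset α} (f f' : α → β)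
    (h : ∀ b, (s.filter fun a => f a = b).card ≤ (s'.filter fun a => f' a = b).card) :
    s.card ≤ s'.card := by
  classical
  rw [card_eq_sum_card_image f s]
  refine (sum_le_sum fun b _ => h b).trans ?_
  rw [sum_card_fiberwise_eq_card_filter]
  exact card_filter_le _ _

open Classical in
theorem main_big (hQ : IsRootedTree Q) (h : IsDeflatedInflation φ) {t : ℕ}
    (hn : Fintype.card P = t + 3) :
    ((Lab P).filter fun L => HasSortingTime L (t + 2)).card ≤
      ((Lab P).filter fun L => HasSortingTime L (t + 1)).card := by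
  have : Nonempty P := Fintype.card_pos_iff.1 (by omega)
  set T := (Lab P).filter fun L => HasSortingTime L (t + 2) with hT
  set S := (Lab P).filter fun L => HasSortingTime L (t + 1) with hS
  set A : ℕ → (P → ℕ) → Prop := fun c L =>
    ∃ u v, u < v ∧ (promo (· < ·))^[t] L u = c ∧ (promo (· < ·))^[t] L v = 1 with hA
  rw [← card_filter_add_card_filter_not (s := T) (A 3),
    ← card_filter_add_card_filter_not (s := S) (A 2)]
  have facts : ∀ L ∈ T, IsLabeling L ∧ ∃ x v, x < v ∧ (∀ z, ¬ z < x) ∧ L x = Fintype.card P ∧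
      (promo (· < ·))^[t] L x = 3 ∧ (promo (· < ·))^[t + 1] L x = 2 ∧
      (promo (· < ·))^[t + 1] L v = 1 := by
    intro L hL
    obtain ⟨hL, k⟩ := mem_filter.1 hL
    rw [mem_Lab] at hL
    obtain ⟨x, v, h1, h2, h3, h4, h5⟩ := tangled_inv hL (t := t + 1) hn k
    refine ⟨hL, x, v, h1, h2, h3, ?_, h4, h5⟩
    rw [iter_min h2 t (by omega)]
    omega
  refine Nat.add_le_add ?_ ?_
  · refine card_le_card_of_injOn (fun L => Equiv.swap (t + 2) (t + 3) ∘ L) ?_
      fun L _ L' _ e => (Equiv.swap (t + 2) (t + 3)).injective.comp_left e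
    intro L hL
    obtain ⟨hLT, u, w, huw, hu, hw⟩ := mem_filter.1 (mem_coe.1 hL)
    obtain ⟨hL, x, v, h1, h2, h3, h4, h5, h6⟩ := facts L hLT
    obtain rfl : u = x := (hL.iter so_lt t).inj (hu.trans h4.symm)
    have hL' : IsLabeling (Equiv.swap (t + 2) (t + 3) ∘ L) :=
      hL.swap (c := t + 2) (by omega) (h3.trans hn)
    have e1 := iter_swap so_lt h2 t (c := 2) hL (by omega) (by omega)
    have e2 := iter_swap so_lt h2 (t + 1) (c := 1) hL (by omega) (by omega)
    rw [show 2 + t = t + 2 by omega] at e1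
    rw [show 1 + (t + 1) = t + 2 by omega] at e2
    have a1 : (promo (· < ·))^[t] (Equiv.swap (t + 2) (t + 3) ∘ L) u = 2 := by
      rw [e1, Function.comp, h4]; decide
    have a2 : (promo (· < ·))^[t] (Equiv.swap (t + 2) (t + 3) ∘ L) w = 1 := by
      rw [e1, Function.comp, hw]; decide
    refine mem_coe.2 (mem_filter.2 ⟨mem_filter.2 ⟨mem_Lab.2 hL', sorting_succ hL' (fun k => ?_) ?_⟩,
      u, w, huw, a1, a2⟩)
    · have := k u w huw (by omega)
      omega
    · have hg := good_iter so_lt hL' (t + 1)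
      rw [show Fintype.card P - (t + 1) = 2 by omega] at hg
      refine hg.zero_of_two so_lt (hL'.iter so_lt _) fun a b hab _ hb => h2 a ?_
      have : (promo (· < ·))^[t + 1] (Equiv.swap (t + 2) (t + 3) ∘ L) u = 1 := by
        rw [e2, Function.comp, h5]; decide
      rwa [(hL'.iter so_lt _).inj (hb.trans this.symm)] at hab
  · refine card_le_fiberwise
      (fun L => (Function.invFun L (t + 3), φ (Function.invFun ((promo (· < ·))^[t] L) 2)))
      (fun L => (Function.invFun L (t + 3), φ (Function.invFun ((promo (· < ·))^[t] L) 1))) ?_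
    rintro ⟨x, p⟩
    have invF : ∀ {M : P → ℕ}, IsLabeling M → ∀ {a c}, M a = c → Function.invFun M c = a :=
      fun hM a c e => hM.inj ((Function.invFun_eq ⟨a, e⟩).trans e.symm)
    have key : ∀ L ∈ (T.filter fun L => ¬ A 3 L).filter fun L =>
        (Function.invFun L (t + 3), φ (Function.invFun ((promo (· < ·))^[t] L) 2)) = (x, p),
        (∀ z, ¬ z < x) ∧ φ x < p ∧ (∀ a, φ a < p → a = x) ∧
          L ∈ Y (· < ·) t x {a | φ a ≤ p} 2 1 := by
      intro L hL0
      obtain ⟨hL1, e⟩ := mem_filter.1 hL0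
      clear hL0
      obtain ⟨hLT, hA3⟩ := mem_filter.1 hL1
      obtain ⟨hL, x', v, h1, h2, h3, h4, h5, h6⟩ := facts L hLT
      have hL' := hL.iter (r := (· < ·)) so_lt t
      rw [Prod.mk.injEq, invF hL (h3.trans hn)] at e
      obtain ⟨rfl, e⟩ := e
      obtain ⟨z, hz⟩ := hL'.surj le_rfl (by omega)
      have xz : ¬ x' < z := fun k => hA3 ⟨x', z, k, h4, hz⟩
      rw [Function.iterate_succ_apply'] at h6
      have vz : v ≠ z := fun k => xz (k ▸ h1)
      have v1 : 2 ≤ (promo (· < ·))^[t] L v := by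
        have := hL'.pos v
        have : (promo (· < ·))^[t] L v ≠ 1 := fun k => vz (hL'.inj (k.trans hz.symm))
        omega
      have vc : ¬ InChain (· < ·) ((promo (· < ·))^[t] L) v := by
        intro c
        rcases promo_cases (· < ·) hL' v with ⟨k, -⟩ | ⟨-, y, hy, k⟩ | ⟨-, -, k⟩
        · exact k c
        · have := chain_label so_lt hL' c hy.1
          omega
        · omega
      have v2 : (promo (· < ·))^[t] L v = 2 := by
        rw [promo_not vc] at h6
        omega
      have zv : ¬ z < v := by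
        intro k
        refine vc ((inChain_one hz).succ ⟨k, fun w hw => ?_⟩)
        have := chain_label so_lt hL' (inChain_one hz) hw
        omega
      have small : ∀ w, (promo (· < ·))^[t] L w ≤ 3 → w = x' ∨ w = v ∨ w = z := by
        intro w hw
        have := hL'.pos w
        by_cases k1 : (promo (· < ·))^[t] L w = 3
        · exact Or.inl (hL'.inj (by omega))
        by_cases k2 : (promo (· < ·))^[t] L w = 2
        · exact Or.inr (Or.inl (hL'.inj (by omega)))
        · exact Or.inr (Or.inr (hL'.inj (by omega)))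
      rw [invF hL' v2] at e
      subst e
      have leaf : IsMin (φ x') := by
        intro b hb
        by_contra k
        obtain ⟨w, rfl⟩ := h.1 b
        exact h2 w (h.lt (lt_of_le_of_ne hb fun j => k j.ge))
      have xp : φ x' < φ v := lt_of_le_of_ne (h.mono h1) fun k =>
        h1.ne ((h.2.2.2 _ leaf).unique rfl k.symm)
      refine ⟨h2, xp, fun a ha => ?_, mem_Y.2 ⟨hL, h3, ⟨v, le_rfl, v2⟩, z, fun k => ?_,
        fun w hw => ?_, hz⟩⟩
      · rcases small a (below_small so_lt hL hn (h.lt ha) (by omega)) with k | k | k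
        · exact k
        · exact absurd ha (k ▸ lt_irrefl _)
        · exact absurd (h.lt ha) (k ▸ zv)
      · rcases (show φ z ≤ φ v from k).eq_or_lt with j | j
        · exact xz (h.lt (j ▸ xp))
        · exact zv (h.lt j)
      · rcases small w (below_small so_lt hL hn hw (by omega)) with k | k | k
        · exact xz (k ▸ hw)
        · exact xz (h1.trans (k ▸ hw))
        · exact lt_irrefl _ (k ▸ hw)
    rcases ((T.filter fun L => ¬ A 3 L).filter fun L =>
        (Function.invFun L (t + 3), φ (Function.invFun ((promo (· < ·))^[t] L) 2)) = (x, p)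
      ).eq_empty_or_nonempty with e | ⟨L0, hL0⟩
    · rw [e]; exact Nat.zero_le _
    obtain ⟨h2, xp, hp, -⟩ := key L0 hL0
    refine (card_le_card fun L hL => (key L hL).2.2.2).trans ?_
    rw [← sym hQ h hn h2 p xp]
    refine card_le_card fun L hL => ?_
    obtain ⟨hL, h3, ⟨a, ha, ea⟩, z, hz, mz, ez⟩ := mem_Y.1 hL
    have hL' := hL.iter (r := (· < ·)) so_lt t
    have x3 : (promo (· < ·))^[t] L x = 3 := by
      rw [iter_min h2 t (by omega)]
      omega
    have ap : φ a = p := by
      rcases (show φ a ≤ p from ha).eq_or_lt with j | j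
      · exact j
      · rw [hp a j] at ea
        omega
    have xa : x < a := h.lt (ap ▸ xp)
    refine mem_filter.2 ⟨mem_filter.2 ⟨mem_filter.2 ⟨mem_Lab.2 hL,
      sorting_succ hL (fun k => ?_) ?_⟩, ?_⟩, ?_⟩
    · have := k x a xa (by omega)
      omega
    · have hg := good_iter so_lt hL (t + 1)
      rw [show Fintype.card P - (t + 1) = 2 by omega] at hg
      refine hg.zero_of_two so_lt (hL.iter so_lt _) fun u v huv _ hv => mz u ?_
      have : (promo (· < ·))^[t + 1] L z = 1 := by
        rw [Function.iterate_succ_apply', promo_not (not_chain_of_min mz (by omega)), ez]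
      rwa [(hL.iter so_lt _).inj (hv.trans this.symm)] at huv
    · rintro ⟨u, v, huv, hu, hv⟩
      rw [hL'.inj (hu.trans ez.symm), hL'.inj (hv.trans ea.symm)] at huv
      exact hz ((h.mono huv).trans ha)
    · rw [invF hL (h3.trans hn), invF hL' ea, ap]

open Classical in
theorem main_two (hn : Fintype.card P = 2) :
    ((Lab P).filter fun L => HasSortingTime L 1).card ≤
      ((Lab P).filter fun L => HasSortingTime L 0).card := by
  refine card_le_card_of_injOn (fun L => Equiv.swap 1 2 ∘ L) ?_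
    fun L _ L' _ e => (Equiv.swap 1 2).injective.comp_left e
  intro L hL
  obtain ⟨hL, k⟩ := mem_filter.1 (mem_coe.1 hL)
  rw [mem_Lab] at hL
  obtain ⟨x, v, h1, h2, h3, h4, h5⟩ := tangled_inv hL (t := 0) hn k
  have hL' := hL.swap (c := 1) le_rfl (h3.trans hn)
  refine mem_coe.2 (mem_filter.2 ⟨mem_Lab.2 hL', (strictMono_iff hL').2 ?_, fun _ _ => Nat.zero_le _⟩)
  have hg := good_iter so_lt hL' 0
  rw [hn] at hg
  refine hg.zero_of_two so_lt hL' fun a b hab _ hb => h2 a ?_
  have : (Equiv.swap 1 2 ∘ L) x = 1 := by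
    rw [Function.comp, h3, hn]; decide
  rwa [hL'.inj (hb.trans this.symm)] at hab

theorem main (hQ : IsRootedTree Q) (h : IsDeflatedInflation φ) (hn : 2 ≤ Fintype.card P) :
    {L : P → ℕ | IsLabeling L ∧ HasSortingTime L (Fintype.card P - 1)}.ncard ≤
      {L : P → ℕ | IsLabeling L ∧ HasSortingTime L (Fintype.card P - 2)}.ncard := by
  classical
  have e : ∀ k, {L : P → ℕ | IsLabeling L ∧ HasSortingTime L k} =
      ((Lab P).filter fun L => HasSortingTime L k : Finset (P → ℕ)) := by
    intro k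
    ext L
    simp [mem_Lab]
  rw [e, e, Set.ncard_coe_finset, Set.ncard_coe_finset]
  rcases hn.eq_or_lt with h2 | h2
  · rw [← h2]
    convert main_two h2.symm
  · obtain ⟨t, ht⟩ : ∃ t, Fintype.card P = t + 3 := ⟨Fintype.card P - 3, by omega⟩
    rw [ht]
    convert main_big hQ h ht <;> omega

end Pool.Agent.P.MP_0963f7_co
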